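import Pool.Agent.Lib.helper81.ZF

set_option autoImplicit false

namespace Pool.Agent.Lib.helper81

@[simp] lemma cons_zero {M : Type*} (a : M) (v : ℕ → M) : cons a v 0 = a := rfl
@[simp] lemma cons_succ {M : Type*} (a : M) (v : ℕ → M) (n : ℕ) : cons a v (n + 1) = v n := rfl

lemma cons_comp {M N : Type*} (f : M → N) (a : M) (v : ℕ → M) :
    (fun i => f (cons a v i)) = cons (f a) (fun i => f (v i)) := by
  funext i; cases i <;> rfl

lemma forall_cons {M : Type*} {Q : M → Prop} {a : M} {v : ℕ → M} (ha : Q a) (hv : ∀ i, Q (v i)) :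
    ∀ i, Q (cons a v i) := by
  intro i; cases i with
  | zero => exact ha
  | succ n => exact hv n

/-- predicates on assignments, uniformly in the structure -/
abbrev Pred : Type 1 := ∀ (M : Type) (_ : M → M → Prop), (ℕ → M) → Prop

/-- first-order definable predicates -/
def Def (Φ : Pred) : Prop := ∃ φ : Fml, ∀ M E v, Φ M E v ↔ Sat E φ v

namespace Def

lemma congr {Φ Ψ : Pred} (h : Def Φ) (e : ∀ M E v, Ψ M E v ↔ Φ M E v) : Def Ψ := by
  obtain ⟨φ, hφ⟩ := h
  exact ⟨φ, fun M E v => (e M E v).trans (hφ M E v)⟩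

lemma mem (i j : ℕ) : Def (fun _ E v => E (v i) (v j)) := ⟨.mem i j, fun _ _ _ => Iff.rfl⟩

lemma eq (i j : ℕ) : Def (fun _ _ v => v i = v j) := ⟨.eq i j, fun _ _ _ => Iff.rfl⟩

lemma false : Def (fun _ _ _ => False) := ⟨.bot, fun _ _ _ => Iff.rfl⟩

lemma imp {Φ Ψ : Pred} (h1 : Def Φ) (h2 : Def Ψ) : Def (fun M E v => Φ M E v → Ψ M E v) := by
  obtain ⟨φ, hφ⟩ := h1
  obtain ⟨ψ, hψ⟩ := h2
  exact ⟨.imp φ ψ, fun M E v => imp_congr (hφ M E v) (hψ M E v)⟩

lemma all {Φ : ∀ (M : Type) (_ : M → M → Prop), (ℕ → M) → M → Prop}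
    (h : Def (fun M E v => Φ M E (fun i => v (i + 1)) (v 0))) :
    Def (fun M E v => ∀ a, Φ M E v a) := by
  obtain ⟨φ, hφ⟩ := h
  exact ⟨.all φ, fun M E v => forall_congr' fun a => hφ M E (cons a v)⟩

lemma not {Φ : Pred} (h : Def Φ) : Def (fun M E v => ¬ Φ M E v) := h.imp false

lemma and {Φ Ψ : Pred} (h1 : Def Φ) (h2 : Def Ψ) : Def (fun M E v => Φ M E v ∧ Ψ M E v) :=
  (h1.imp h2.not).not.congr fun _ _ _ => by tauto

lemma or {Φ Ψ : Pred} (h1 : Def Φ) (h2 : Def Ψ) : Def (fun M E v => Φ M E v ∨ Ψ M E v) :=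
  (h1.not.imp h2).congr fun _ _ _ => by tauto

lemma iff {Φ Ψ : Pred} (h1 : Def Φ) (h2 : Def Ψ) : Def (fun M E v => Φ M E v ↔ Ψ M E v) :=
  ((h1.imp h2).and (h2.imp h1)).congr fun _ _ _ => iff_def

lemma ex {Φ : ∀ (M : Type) (_ : M → M → Prop), (ℕ → M) → M → Prop}
    (h : Def (fun M E v => Φ M E (fun i => v (i + 1)) (v 0))) :
    Def (fun M E v => ∃ a, Φ M E v a) :=
  (all (Φ := fun M E v a => ¬ Φ M E v a) h.not).not.congr fun _ _ _ => by
    simp only [not_forall, not_not]

lemma const (Q : Prop) : Def (fun _ _ _ => Q) := by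
  by_cases h : Q
  · exact false.not.congr fun _ _ _ => by tauto
  · exact false.congr fun _ _ _ => by tauto

lemma sat (φ : Fml) : Def (fun _ E v => Sat E φ v) := ⟨φ, fun _ _ _ => Iff.rfl⟩

end Def

/-- renaming of variables -/
def Fml.ren : Fml → (ℕ → ℕ) → Fml
  | .mem i j, f => .mem (f i) (f j)
  | .eq i j, f => .eq (f i) (f j)
  | .bot, _ => .bot
  | .imp φ ψ, f => .imp (φ.ren f) (ψ.ren f)
  | .all φ, f => .all (φ.ren (cons 0 (fun i => f i + 1)))

lemma sat_ren {M : Type} (E : M → M → Prop) (φ : Fml) :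
    ∀ (f : ℕ → ℕ) (v : ℕ → M), Sat E (φ.ren f) v ↔ Sat E φ (fun i => v (f i)) := by
  induction φ with
  | mem i j => intro f v; rfl
  | eq i j => intro f v; rfl
  | bot => intro f v; rfl
  | imp φ ψ ih1 ih2 => intro f v; exact imp_congr (ih1 f v) (ih2 f v)
  | all φ ih =>
    intro f v
    refine forall_congr' fun a => (ih _ _).trans ?_
    have : (fun i => cons a v (cons 0 (fun i => f i + 1) i)) = cons a (fun i => v (f i)) := by
      funext i; cases i <;> rfl
    rw [this]

namespace Def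

lemma ren {Φ : Pred} (h : Def Φ) (f : ℕ → ℕ) : Def (fun M E v => Φ M E (fun i => v (f i))) := by
  obtain ⟨φ, hφ⟩ := h
  exact ⟨φ.ren f, fun M E v => (hφ M E _).trans (sat_ren E φ f v).symm⟩

lemma exu {Φ : ∀ (M : Type) (_ : M → M → Prop), (ℕ → M) → M → Prop}
    (h : Def (fun M E v => Φ M E (fun i => v (i + 1)) (v 0))) :
    Def (fun M E v => ∃! a, Φ M E v a) := by
  unfold ExistsUnique
  apply ex
  apply and h
  apply all
  apply imp _ (eq _ _)
  exact h.ren (cons 0 (fun i => i + 2))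

lemma sub (i j : ℕ) : Def (fun _ E v => Sub E (v i) (v j)) := by
  unfold Sub
  exact all (imp (mem _ _) (mem _ _))

lemma ind (i : ℕ) : Def (fun _ E v => Ind E (v i)) := by
  unfold Ind
  with_reducible repeat' first
    | exact mem _ _ | exact eq _ _ | apply not | apply and | apply or | apply iff | apply imp
    | apply all | apply ex

lemma op (i j k : ℕ) : Def (fun _ E v => OP E (v i) (v j) (v k)) := by
  unfold OP
  with_reducible repeat' first
    | exact mem _ _ | exact eq _ _ | apply not | apply and | apply or | apply iff | apply imp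
    | apply all | apply ex

lemma rel (i j k : ℕ) : Def (fun _ E v => Rel E (v i) (v j) (v k)) := by
  unfold Rel
  with_reducible repeat' first
    | exact mem _ _ | exact op _ _ _ | apply and | apply ex

lemma inj (i j k : ℕ) : Def (fun _ E v => Inj E (v i) (v j) (v k)) := by
  unfold Inj
  with_reducible repeat' first
    | exact mem _ _ | exact eq _ _ | exact op _ _ _ | exact rel _ _ _
    | apply not | apply and | apply or | apply iff | apply imp
    | apply all | apply ex | apply exu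

lemma omega (i : ℕ) : Def (fun _ E v => Omega E (v i)) := by
  unfold Omega
  with_reducible repeat' first
    | exact ind _ | exact sub _ _ | apply and | apply imp | apply all

lemma ctbl (i : ℕ) : Def (fun _ E v => Ctbl E (v i)) := by
  unfold Ctbl
  with_reducible repeat' first
    | exact omega _ | exact inj _ _ _ | apply and | apply ex

lemma fint (i : ℕ) : Def (fun _ E v => Fint E (v i)) := by
  unfold Fint
  with_reducible repeat' first
    | exact omega _ | exact inj _ _ _ | exact mem _ _ | apply and | apply ex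

end Def

section ZFfacts

variable {M : Type} {E : M → M → Prop}

lemma IsZF.sepDef (h : IsZF E) {Φ : Pred} (hΦ : Def Φ) (v : ℕ → M) (a : M) :
    ∃ c, ∀ x, E x c ↔ E x a ∧ Φ M E (cons x v) := by
  obtain ⟨φ, hφ⟩ := hΦ
  obtain ⟨c, hc⟩ := h.sep φ v a
  exact ⟨c, fun x => by rw [hc, hφ]⟩

lemma OP.inj {p a b c d : M} (hpair : ∀ a b, ∃ c, ∀ x, E x c ↔ x = a ∨ x = b)
    (h1 : OP E p a b) (h2 : OP E p c d) : a = c ∧ b = d := by
  obtain ⟨s, hs⟩ := hpair a a
  obtain ⟨t, ht⟩ := hpair a b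
  obtain ⟨u, hu⟩ := hpair c d
  have hs' : ∀ w, E w s ↔ w = a := fun w => by rw [hs]; tauto
  have e1 : a = c := by
    rcases (h2 s).1 ((h1 s).2 (Or.inl hs')) with h | h
    · exact (h a).1 ((hs' a).2 rfl)
    · exact ((hs' c).1 ((h c).2 (Or.inl rfl))).symm
  subst e1
  refine ⟨rfl, ?_⟩
  have k1 : b = a ∨ b = d := by
    rcases (h2 t).1 ((h1 t).2 (Or.inr ht)) with h | h
    · exact Or.inl ((h b).1 ((ht b).2 (Or.inr rfl)))
    · exact (h b).1 ((ht b).2 (Or.inr rfl))
  have k2 : d = a ∨ d = b := by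
    rcases (h1 u).1 ((h2 u).2 (Or.inr hu)) with h | h
    · exact Or.inl ((h d).1 ((hu d).2 (Or.inr rfl)))
    · exact (h d).1 ((hu d).2 (Or.inr rfl))
  rcases k1 with k1 | k1
  · rcases k2 with k2 | k2
    · rw [k1, k2]
    · exact k2.symm
  · exact k1

lemma OP.unique {p q a b : M} (hext : ∀ a b, (∀ x, E x a ↔ E x b) → a = b)
    (h1 : OP E p a b) (h2 : OP E q a b) : p = q :=
  hext _ _ fun x => (h1 x).trans (h2 x).symm

lemma Omega.unique {w w' : M} (hext : ∀ a b, (∀ x, E x a ↔ E x b) → a = b)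
    (h1 : Omega E w) (h2 : Omega E w') : w = w' :=
  hext _ _ fun x => ⟨h1.2 w' h2.1 x, h2.2 w h1.1 x⟩

end ZFfacts

end Pool.Agent.Lib.helper81
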