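import Pool.Agent.Lib.helper81.Model

set_option autoImplicit false

namespace Pool.Agent.Lib.helper81

open Name

variable {P : Type} [Preorder P] {G : Type} [Group G] [MulAction G P] [SymSys P G]

lemma mem_sym_up {π : G} {a b : HS (P := P) G} (ha : π ∈ sym G a.1) (hb : π ∈ sym G b.1) :
    π ∈ sym G (setN (fun t : Bool => (bif t then a else b).1)) :=
  mem_sym_setN' fun t => by cases t <;> assumption

/-- name of the unordered pair -/
def upH (a b : HS (P := P) G) : HS (P := P) G :=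
  setH (fun t : Bool => bif t then a else b)
    (Filter.mem_of_superset (Filter.inter_mem a.sym_mem b.sym_mem) fun _ h => mem_sym_up h.1 h.2)

/-- name of the ordered pair -/
def opH (a b : HS (P := P) G) : HS (P := P) G := upH (upH a a) (upH a b)

lemma smul_upH (π : G) (a b : HS (P := P) G) : π • upH a b = upH (π • a) (π • b) := by
  apply Subtype.ext
  show π • setN _ = setN _
  rw [smul_setN]
  congr 1
  funext t
  cases t <;> rfl

lemma smul_opH (π : G) (a b : HS (P := P) G) : π • opH a b = opH (π • a) (π • b) := by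
  simp only [opH, smul_upH]

lemma mem_sym_upH {π : G} {a b : HS (P := P) G} (ha : π ∈ sym G a.1) (hb : π ∈ sym G b.1) :
    π ∈ sym G (upH a b).1 := mem_sym_up ha hb

lemma mem_sym_opH {π : G} {a b : HS (P := P) G} (ha : π ∈ sym G a.1) (hb : π ∈ sym G b.1) :
    π ∈ sym G (opH a b).1 := mem_sym_upH (mem_sym_upH ha ha) (mem_sym_upH ha hb)

lemma smul_natH (π : G) (n : ℕ) : π • (natH G n : HS (P := P) G) = natH G n :=
  Subtype.ext (smul_natN π n)

namespace GM

variable (gm : GM (P := P) G)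

lemma mem_upH {a b : HS (P := P) G} (ha : a ∈ gm.S) (hb : b ∈ gm.S) (h : upH a b ∈ gm.S)
    (m : gm.M) : gm.E m (gm.val (upH a b)) ↔ m = gm.val a ∨ m = gm.val b := by
  unfold upH at h ⊢
  rw [gm.mem_setH_iff h (fun t => by cases t <;> assumption)]
  constructor
  · rintro ⟨t, rfl⟩
    cases t
    · exact Or.inr rfl
    · exact Or.inl rfl
  · rintro (rfl | rfl)
    · exact ⟨true, rfl⟩
    · exact ⟨false, rfl⟩

lemma op_spec {a b : HS (P := P) G} (ha : a ∈ gm.S) (hb : b ∈ gm.S) (h : opH a b ∈ gm.S) :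
    OP gm.E (gm.val (opH a b)) (gm.val a) (gm.val b) := by
  obtain ⟨p, hp⟩ := gm.nonempty
  refine Fc.of_extra (Def.op 0 1 2) (w := cons (opH a b) (cons a fun _ => b))
    {upH a a, upH a b} (Set.to_countable _) ?_ gm hp (forall_cons h (forall_cons ha fun _ => hb))
  intro g _ h2 h3 z
  have k1 : upH a a ∈ g.S := h3 (by simp)
  have k2 : upH a b ∈ g.S := h3 (by simp)
  have ka : a ∈ g.S := h2 1
  refine (g.mem_upH k1 k2 (h2 0) z).trans (or_congr ?_ ?_)
  · constructor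
    · rintro rfl w
      rw [g.mem_upH ka ka k1, or_self]
      rfl
    · intro hz
      apply g.ext
      intro w
      rw [hz, g.mem_upH ka ka k1, or_self]
      rfl
  · constructor
    · rintro rfl w
      exact g.mem_upH (h2 1) (h2 2) k2 w
    · intro hz
      apply g.ext
      intro w
      rw [hz]
      exact (g.mem_upH (h2 1) (h2 2) k2 w).symm

/-- a set of ordered pairs of names -/
lemma rel_setH {ι : Type} {a b : ι → HS (P := P) G} {h}
    (hS : setH (fun i => opH (a i) (b i)) h ∈ gm.S) (ha : ∀ i, a i ∈ gm.S) (hb : ∀ i, b i ∈ gm.S)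
    (hab : ∀ i, opH (a i) (b i) ∈ gm.S) (x y : gm.M) :
    Rel gm.E (gm.val (setH (fun i => opH (a i) (b i)) h)) x y ↔
      ∃ i, gm.val (a i) = x ∧ gm.val (b i) = y := by
  unfold Rel
  simp only [gm.mem_setH_iff hS hab]
  constructor
  · rintro ⟨p, ⟨i, rfl⟩, hp⟩
    exact ⟨i, (gm.op_spec (ha i) (hb i) (hab i)).inj gm.isZF.pair hp⟩
  · rintro ⟨i, rfl, rfl⟩
    exact ⟨_, ⟨i, rfl⟩, gm.op_spec (ha i) (hb i) (hab i)⟩

/-- countability of a set of names enumerated without repetition -/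
lemma ctbl_of_enum {ι : Type} {a : ι → HS (P := P) G} (c : ι → ℕ) {h}
    (hS : setH (fun i => opH (a i) (natH G (c i))) h ∈ gm.S) (ha : ∀ i, a i ∈ gm.S)
    (hab : ∀ i, opH (a i) (natH G (c i)) ∈ gm.S) (hc : Function.Injective c)
    (hinj : ∀ i j, gm.val (a i) = gm.val (a j) → i = j) {X : gm.M}
    (hX : ∀ x, gm.E x X ↔ ∃ i, gm.val (a i) = x) : Ctbl gm.E X := by
  refine ⟨gm.omega, gm.val (setH (fun i => opH (a i) (natH G (c i))) h), gm.omega_spec, ?_, ?_, ?_⟩
  · intro p hp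
    obtain ⟨i, rfl⟩ := (gm.mem_setH_iff hS hab p).1 hp
    exact ⟨_, _, (hX _).2 ⟨i, rfl⟩, (gm.mem_omega _).2 ⟨c i, rfl⟩,
      gm.op_spec (ha i) (gm.nat_mem _) (hab i)⟩
  · intro x hx
    obtain ⟨i, rfl⟩ := (hX x).1 hx
    simp only [gm.rel_setH hS ha (fun i => gm.nat_mem _) hab]
    refine ⟨_, ⟨i, rfl, rfl⟩, ?_⟩
    rintro y ⟨j, h1, rfl⟩
    rw [hinj _ _ h1]
  · intro x x' y
    simp only [gm.rel_setH hS ha (fun i => gm.nat_mem _) hab]
    rintro ⟨i, rfl, h1⟩ ⟨j, rfl, h2⟩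
    rw [hc (gm.nat_inj (h1.trans h2.symm))]

end GM

/-- meeting countably many dense open sets in a sigma-closed forcing -/
lemma sigma_meet (hσ : ∀ c : ℕ → P, Antitone c → ∃ q, ∀ n, q ≤ c n) {T : Type*} [Countable T]
    (D : T → P → Prop) (p : P) (hmono : ∀ t q r, D t q → r ≤ q → D t r)
    (hd : ∀ t, ∀ q ≤ p, ∃ r ≤ q, D t r) : ∃ q ≤ p, ∀ t, D t q := by
  rcases isEmpty_or_nonempty T with h | h
  · exact ⟨p, le_rfl, fun t => isEmptyElim t⟩
  obtain ⟨e, he⟩ := exists_surjective_nat T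
  have : ∀ n (q : {q // q ≤ p}), ∃ r : {q // q ≤ p}, r.1 ≤ q.1 ∧ D (e n) r.1 := by
    intro n q
    obtain ⟨r, h1, h2⟩ := hd (e n) q.1 q.2
    exact ⟨⟨r, h1.trans q.2⟩, h1, h2⟩
  choose nx h1 h2 using this
  let c : ℕ → {q // q ≤ p} := fun n => Nat.rec ⟨p, le_rfl⟩ (fun n q => nx n q) n
  obtain ⟨q, hq⟩ := hσ (fun n => (c n).1) (antitone_nat_of_succ_le fun n => h1 n (c n))
  refine ⟨q, hq 0, fun t => ?_⟩
  obtain ⟨n, rfl⟩ := he t
  exact hmono _ _ _ (h2 n (c n)) (hq (n + 1))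

end Pool.Agent.Lib.helper81
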