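import Pool.Agent.Lib.helper81.Names

set_option autoImplicit false

namespace Pool.Agent.Lib.helper81

open Name

variable {P : Type} [Preorder P] {G : Type} [Group G] [MulAction G P] [SymSys P G]

/-- the forcing relation of the symmetric extension -/
def Forces : Fml → (ℕ → HS (P := P) G) → P → Prop
  | .mem i j, w, p => Fmem (w i).1 (w j).1 p
  | .eq i j, w, p => Feq (w i).1 (w j).1 p
  | .bot, _, _ => False
  | .imp φ ψ, w, p => ∀ q ≤ p, Forces φ w q → Forces ψ w q
  | .all φ, w, p => ∀ x, Forces φ (cons x w) p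

lemma Forces.mono {φ : Fml} : ∀ {w : ℕ → HS (P := P) G} {p q : P}, Forces φ w p → q ≤ p →
    Forces φ w q := by
  induction φ with
  | mem i j => intro w p q h hq; exact Fmem.mono h hq
  | eq i j => intro w p q h hq; exact Feq.mono h hq
  | bot => intro w p q h _; exact h
  | imp φ ψ _ _ => intro w p q h hq r hr; exact h r (hr.trans hq)
  | all φ ih => intro w p q h hq x; exact ih (h x) hq

lemma Forces.reg {φ : Fml} : ∀ {w : ℕ → HS (P := P) G} {p : P},
    (∀ q ≤ p, ∃ r ≤ q, Forces φ w r) → Forces φ w p := by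
  induction φ with
  | mem i j => intro w p h; exact Fmem.reg h
  | eq i j => intro w p h; exact Feq.reg h
  | bot => intro w p h; obtain ⟨r, _, h'⟩ := h p le_rfl; exact h'
  | imp φ ψ _ ih2 =>
    intro w p h q hq hφ
    apply ih2
    intro r hr
    obtain ⟨s, hs, h'⟩ := h r (hr.trans hq)
    exact ⟨s, hs, h' s le_rfl (hφ.mono (hs.trans hr))⟩
  | all φ ih =>
    intro w p h x
    apply ih
    intro q hq
    obtain ⟨r, hr, h'⟩ := h q hq
    exact ⟨r, hr, h' x⟩

lemma Forces.congr {φ : Fml} : ∀ {w w' : ℕ → HS (P := P) G} {p : P},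
    (∀ i, Feq (w i).1 (w' i).1 p) → Forces φ w p → Forces φ w' p := by
  induction φ with
  | mem i j => intro w w' p e h; exact (Fmem.congr_left h (e i)).congr_right (e j)
  | eq i j => intro w w' p e h; exact ((e i).symm.trans h).trans (e j)
  | bot => intro w w' p _ h; exact h
  | imp φ ψ ih1 ih2 =>
    intro w w' p e h q hq hφ
    exact ih2 (fun i => (e i).mono hq) (h q hq (ih1 (fun i => ((e i).mono hq).symm) hφ))
  | all φ ih =>
    intro w w' p e h x
    refine ih (fun i => ?_) (h x)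
    cases i with
    | zero => exact Feq.refl _ _
    | succ n => exact e n

lemma forces_smul (π : G) (φ : Fml) : ∀ (w : ℕ → HS (P := P) G) (p : P),
    Forces φ w p ↔ Forces φ (fun i => π • w i) (π • p) := by
  induction φ with
  | mem i j =>
    intro w p
    refine ⟨fun h => Fmem.smul π h, fun h => ?_⟩
    have := Fmem.smul π⁻¹ h
    simpa [Forces] using this
  | eq i j =>
    intro w p
    refine ⟨fun h => Feq.smul π h, fun h => ?_⟩
    have := Feq.smul π⁻¹ h
    simpa [Forces] using this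
  | bot => intro w p; rfl
  | imp φ ψ ih1 ih2 =>
    intro w p
    constructor
    · intro h q hq hφ
      have h1 := h (π⁻¹ • q) ((le_smul_iff π).1 hq) ((ih1 w _).2 (by simpa using hφ))
      simpa using (ih2 w _).1 h1
    · intro h q hq hφ
      exact (ih2 w q).2 (h _ (smul_mono π hq) ((ih1 w q).1 hφ))
  | all φ ih =>
    intro w p
    constructor
    · intro h x
      have := (ih _ p).1 (h (π⁻¹ • x))
      rw [cons_comp (fun y => π • y)] at this
      simpa using this
    · intro h x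
      apply (ih _ p).2
      rw [cons_comp (fun y => π • y)]
      exact h _

def Fml.bd : Fml → ℕ
  | .mem i j => max i j + 1
  | .eq i j => max i j + 1
  | .bot => 0
  | .imp φ ψ => max φ.bd ψ.bd
  | .all φ => φ.bd

lemma forces_congr_bd (φ : Fml) : ∀ (w w' : ℕ → HS (P := P) G) (p : P),
    (∀ i < φ.bd, w i = w' i) → (Forces φ w p ↔ Forces φ w' p) := by
  induction φ with
  | mem i j =>
    intro w w' p e
    simp only [Forces, e i (by simp [Fml.bd]), e j (by simp [Fml.bd])]
  | eq i j =>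
    intro w w' p e
    simp only [Forces, e i (by simp [Fml.bd]), e j (by simp [Fml.bd])]
  | bot => intro w w' p _; rfl
  | imp φ ψ ih1 ih2 =>
    intro w w' p e
    refine forall_congr' fun q => forall_congr' fun _ => imp_congr (ih1 w w' q ?_) (ih2 w w' q ?_)
    · intro i hi; exact e i (lt_of_lt_of_le hi (le_max_left _ _))
    · intro i hi; exact e i (lt_of_lt_of_le hi (le_max_right _ _))
  | all φ ih =>
    intro w w' p e
    refine forall_congr' fun x => ih _ _ p fun i hi => ?_
    cases i with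
    | zero => rfl
    | succ n => exact e n (lt_trans (Nat.lt_succ_self n) hi)

def Fml.enc : Fml → ℕ
  | .mem i j => Nat.pair 0 (Nat.pair i j)
  | .eq i j => Nat.pair 1 (Nat.pair i j)
  | .bot => Nat.pair 2 0
  | .imp φ ψ => Nat.pair 3 (Nat.pair φ.enc ψ.enc)
  | .all φ => Nat.pair 4 φ.enc

lemma Fml.enc_inj : ∀ φ ψ : Fml, φ.enc = ψ.enc → φ = ψ := by
  intro φ
  induction φ with
  | mem i j => intro ψ h; cases ψ <;> simp_all [Fml.enc, Nat.pair_eq_pair]
  | eq i j => intro ψ h; cases ψ <;> simp_all [Fml.enc, Nat.pair_eq_pair]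
  | bot => intro ψ h; cases ψ <;> simp_all [Fml.enc, Nat.pair_eq_pair]
  | imp a b iha ihb =>
    intro ψ h
    cases ψ <;> simp only [Fml.enc, Nat.pair_eq_pair] at h <;> try omega
    rw [iha _ h.2.1, ihb _ h.2.2]
  | all a ih =>
    intro ψ h
    cases ψ <;> simp only [Fml.enc, Nat.pair_eq_pair] at h <;> try omega
    rw [ih _ h.2]

instance : Countable Fml := ⟨Fml.enc, fun _ _ h => Fml.enc_inj _ _ h⟩

/-- the name of the set of the names `A i` -/
def setN {ι : Type} (A : ι → Name P) : Name P := Name.mk ι A (fun _ => ⊤)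

lemma smul_setN (π : G) {ι : Type} (A : ι → Name P) : π • setN A = setN (fun i => π • A i) := by
  unfold setN
  rw [smul_mk]
  congr

lemma fmem_setN {ι : Type} (A : ι → Name P) (i : ι) (p : P) : Fmem (A i) (setN A) p :=
  Fmem.of_B (y := setN A) (b := i) trivial

lemma mem_sym_setN {π : G} {ι : Type} {A : ι → Name P}
    (h1 : ∀ i, ∃ j, ∀ p, Feq (π • A i) (A j) p) (h2 : ∀ j, ∃ i, ∀ p, Feq (π • A i) (A j) p) :
    π ∈ sym G (setN A) := by
  intro p
  rw [smul_setN]
  refine ⟨fun i q _ _ => ?_, fun j q _ _ => ?_⟩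
  · obtain ⟨j, hj⟩ := h1 i
    exact ⟨q, le_rfl, j, trivial, hj q⟩
  · obtain ⟨i, hi⟩ := h2 j
    exact ⟨q, le_rfl, i, trivial, hi q⟩

lemma mem_sym_setN' {π : G} {ι : Type} {A : ι → Name P} (h : ∀ i, π ∈ sym G (A i)) :
    π ∈ sym G (setN A) :=
  mem_sym_setN (fun i => ⟨i, h i⟩) (fun i => ⟨i, h i⟩)

/-- hereditarily symmetric set of names -/
def setH {ι : Type} (A : ι → HS (P := P) G)
    (h : sym G (setN (fun i => (A i).1)) ∈ (SymSys.F : Filter G)) : HS (P := P) G :=
  ⟨setN (fun i => (A i).1), h, fun i => (A i).2⟩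

/-- the name of a natural number -/
def natN (n : ℕ) : Name P := setN (fun i : Fin n => natN i.1)
termination_by n
decreasing_by exact i.2

lemma smul_natN (π : G) (n : ℕ) : π • (natN n : Name P) = natN n := by
  induction n using Nat.strong_induction_on with
  | _ n ih =>
    rw [natN, smul_setN]
    congr 1
    funext i
    exact ih i.1 i.2

lemma mem_sym_natN (π : G) (n : ℕ) : π ∈ sym G (natN n : Name P) := fun p => by
  rw [smul_natN]; exact Feq.refl _ _

lemma isHS_natN (n : ℕ) : IsHS G (natN n : Name P) := by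
  induction n using Nat.strong_induction_on with
  | _ n ih =>
    have h := fun π : G => mem_sym_natN (P := P) π n
    rw [natN] at h ⊢
    exact ⟨Filter.univ_mem' h, fun i => ih i.1 i.2⟩

variable (G) in
def natH (n : ℕ) : HS (P := P) G := ⟨natN n, isHS_natN n⟩

variable (G) in
def omegaH : HS (P := P) G :=
  setH (natH G) (Filter.univ_mem' fun π => mem_sym_setN' fun n => mem_sym_natN π n)

lemma mem_sym_omegaH (π : G) : π ∈ sym G (omegaH (P := P) G).1 :=
  mem_sym_setN' fun n => mem_sym_natN π n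

lemma henkin {X : Type*} [Inhabited X] {T : Type} [Countable T] [Nonempty T]
    (Task : T → P → (ℕ → X) → X → Prop) (bd : T → ℕ)
    (hbd : ∀ t q s s' x, (∀ i < bd t, s i = s' i) → Task t q s x → Task t q s' x)
    (hd : ∀ t p s, ∃ q ≤ p, ∃ x, Task t q s x) (p0 : P) :
    ∃ (c : ℕ → P) (s : ℕ → X), Antitone c ∧ c 0 = p0 ∧ ∀ t, ∃ k j, Task t (c k) s (s j) := by
  classical
  obtain ⟨e, he⟩ := exists_surjective_nat T
  choose nq hnq nx hnx using hd
  let st : ℕ → P × ℕ × (ℕ → X) := fun k => Nat.rec (p0, 0, fun _ => default)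
    (fun k a => (nq (e k) a.1 a.2.2, max a.2.1 (bd (e k)) + 1,
      Function.update a.2.2 (max a.2.1 (bd (e k))) (nx (e k) a.1 a.2.2))) k
  have hst : ∀ k, st (k + 1) = (nq (e k) (st k).1 (st k).2.2, max (st k).2.1 (bd (e k)) + 1,
      Function.update (st k).2.2 (max (st k).2.1 (bd (e k))) (nx (e k) (st k).1 (st k).2.2)) :=
    fun k => rfl
  have hn : StrictMono (fun k => (st k).2.1) := by
    apply strictMono_nat_of_lt_succ
    intro k
    rw [hst]
    simp only
    omega
  have hagree : ∀ k l, k ≤ l → ∀ i < (st k).2.1, (st l).2.2 i = (st k).2.2 i := by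
    intro k l hkl i hi
    induction l, hkl using Nat.le_induction with
    | base => rfl
    | succ l hl ih =>
      rw [hst]
      simp only
      have : (st k).2.1 ≤ (st l).2.1 := hn.monotone hl
      rw [Function.update_of_ne (by omega), ih]
  have hlim : ∀ k, ∀ i < (st k).2.1, (st (i + 1)).2.2 i = (st k).2.2 i := by
    intro k i hi
    rcases le_total k (i + 1) with h | h
    · exact hagree k (i + 1) h i hi
    · have : i + 1 ≤ (st (i + 1)).2.1 := hn.le_apply
      exact (hagree (i + 1) k h i (by omega)).symm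
  refine ⟨fun k => (st k).1, fun i => (st (i + 1)).2.2 i, ?_, rfl, ?_⟩
  · apply antitone_nat_of_succ_le
    intro k
    rw [hst]
    exact hnq _ _ _
  · intro t
    obtain ⟨k, rfl⟩ := he t
    refine ⟨k + 1, max (st k).2.1 (bd (e k)), ?_⟩
    have h1 : (st (max (st k).2.1 (bd (e k)) + 1)).2.2 (max (st k).2.1 (bd (e k))) =
        nx (e k) (st k).1 (st k).2.2 := by
      rw [hlim (k + 1) _ (by rw [hst]; simp only; omega), hst]
      simp
    simp only
    rw [h1]
    refine hbd _ _ (st k).2.2 _ _ (fun i hi => ?_) (hnx (e k) (st k).1 (st k).2.2)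
    rw [hlim (k + 1) i (by rw [hst]; simp only; omega), hst]
    simp only
    rw [Function.update_of_ne (by omega)]

variable (G) in
/-- a countable two-valued generic model -/
structure GM where
  M : Type
  E : M → M → Prop
  S : Set (HS (P := P) G)
  val : HS (P := P) G → M
  Γ : Set P
  up : ∀ p q, p ∈ Γ → p ≤ q → q ∈ Γ
  dir : ∀ p q, p ∈ Γ → q ∈ Γ → ∃ r ∈ Γ, r ≤ p ∧ r ≤ q
  surj : ∀ m, ∃ a ∈ S, val a = m
  truth : ∀ φ w, (∀ i, w i ∈ S) → (Sat E φ (fun i => val (w i)) ↔ ∃ q ∈ Γ, Forces φ w q)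
  std : ∀ a ∈ S, ∀ m, E m (val a) →
    ∃ i, a.sub i ∈ S ∧ val (a.sub i) = m ∧ ∃ q ∈ Γ, q ∈ a.1.B i
  nat_mem : ∀ n, natH G n ∈ S
  omega_mem : omegaH G ∈ S

theorem exists_gm (p0 : P) (C : Set (HS (P := P) G)) (hC : C.Countable) :
    ∃ gm : GM (P := P) G, p0 ∈ gm.Γ ∧ C ⊆ gm.S := by
  classical
  have hC' : (insert (omegaH G) (Set.range (natH G) ∪ C)).Countable :=
    ((Set.countable_range _).union hC).insert _
  obtain ⟨v, hv⟩ := hC'.exists_eq_range ⟨_, Set.mem_insert _ _⟩
  let _ : Inhabited (HS (P := P) G) := ⟨omegaH G⟩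
  let Task : (Fml × List ℕ) ⊕ (ℕ × ℕ) ⊕ ℕ → P → (ℕ → HS (P := P) G) → HS (P := P) G → Prop :=
    fun t q s x => match t with
    | .inl (φ, l) =>
      (Forces φ (fun i => s (l.getD i 0)) q ∨ ∀ r ≤ q, ¬ Forces φ (fun i => s (l.getD i 0)) r) ∧
      (Forces (.all φ) (fun i => s (l.getD i 0)) q ∨
        ∀ r ≤ q, ¬ Forces φ (cons x (fun i => s (l.getD i 0))) r)
    | .inr (.inl (i, j)) => (∀ r ≤ q, ¬ Fmem (s i).1 (s j).1 r) ∨
        ∃ b, x = (s j).sub b ∧ q ∈ (s j).1.B b ∧ Feq (s i).1 x.1 q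
    | .inr (.inr n) => x = v n
  let bd : (Fml × List ℕ) ⊕ (ℕ × ℕ) ⊕ ℕ → ℕ := fun t => match t with
    | .inl (_, l) => l.sum + 1
    | .inr (.inl (i, j)) => max i j + 1
    | .inr (.inr _) => 0
  obtain ⟨c, s, hc, hc0, ht⟩ := henkin (P := P) Task bd (by
      rintro (⟨φ, l⟩ | ⟨i, j⟩ | n) q s s' x e h
      · have : (fun i => s (l.getD i 0)) = fun i => s' (l.getD i 0) := by
          funext i
          apply e
          show l.getD i 0 < l.sum + 1
          rcases lt_or_ge i l.length with hi | hi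
          · rw [List.getD_eq_getElem _ _ hi]
            exact Nat.lt_succ_of_le (List.single_le_sum (fun _ _ => Nat.zero_le _) _
              (List.getElem_mem hi))
          · rw [List.getD_eq_default _ _ hi]; omega
        simp only [Task] at h ⊢
        rw [← this]; exact h
      · have h1 : s i = s' i := e i (by show i < max i j + 1; omega)
        have h2 : s j = s' j := e j (by show j < max i j + 1; omega)
        simp only [Task] at h ⊢
        rw [← h1, ← h2]; exact h
      · exact h) (by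
      rintro (⟨φ, l⟩ | ⟨i, j⟩ | n) p s
      · simp only [Task]
        set w := fun i => s (l.getD i 0)
        obtain ⟨q, hq, h1⟩ : ∃ q ≤ p, Forces φ w q ∨ ∀ r ≤ q, ¬ Forces φ w r := by
          by_cases h : ∃ q ≤ p, Forces φ w q
          · obtain ⟨q, hq, h⟩ := h
            exact ⟨q, hq, Or.inl h⟩
          · push Not at h
            exact ⟨p, le_rfl, Or.inr h⟩
        by_cases h : Forces (.all φ) w q
        · exact ⟨q, hq, default, h1, Or.inl h⟩
        · have : ∃ x, ¬ Forces φ (cons x w) q := not_forall.1 h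
          obtain ⟨x, hx⟩ := this
          have : ¬ ∀ q' ≤ q, ∃ r ≤ q', Forces φ (cons x w) r := fun h' => hx (Forces.reg h')
          push Not at this
          obtain ⟨q', hq', h2⟩ := this
          refine ⟨q', hq'.trans hq, x, ?_, Or.inr h2⟩
          rcases h1 with h1 | h1
          · exact Or.inl (h1.mono hq')
          · exact Or.inr fun r hr => h1 r (hr.trans hq')
      · simp only [Task]
        by_cases h : ∃ q ≤ p, Fmem (s i).1 (s j).1 q
        · obtain ⟨q, hq, h⟩ := h
          obtain ⟨r, hr, b, hb, h'⟩ := h q le_rfl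
          exact ⟨r, hr.trans hq, (s j).sub b, Or.inr ⟨b, rfl, hb, h'⟩⟩
        · push Not at h
          exact ⟨p, le_rfl, default, Or.inl h⟩
      · exact ⟨p, le_rfl, v n, rfl⟩) p0
  have hmax : ∀ k l, c (max k l) ≤ c k ∧ c (max k l) ≤ c l :=
    fun k l => ⟨hc (le_max_left _ _), hc (le_max_right _ _)⟩
  let R : Setoid ℕ := ⟨fun i j => ∃ k, Feq (s i).1 (s j).1 (c k),
    fun i => ⟨0, Feq.refl _ _⟩, fun ⟨k, h⟩ => ⟨k, h.symm⟩,
    fun ⟨k, h⟩ ⟨l, h'⟩ => ⟨max k l, (h.mono (hmax k l).1).trans (h'.mono (hmax k l).2)⟩⟩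
  let E : Quotient R → Quotient R → Prop := fun a b =>
    ∃ i j, Quotient.mk R i = a ∧ Quotient.mk R j = b ∧ ∃ k, Fmem (s i).1 (s j).1 (c k)
  have hE : ∀ i j, E (Quotient.mk R i) (Quotient.mk R j) ↔ ∃ k, Fmem (s i).1 (s j).1 (c k) := by
    intro i j
    refine ⟨?_, fun h => ⟨i, j, rfl, rfl, h⟩⟩
    rintro ⟨i', j', h1, h2, k, h⟩
    obtain ⟨k1, h1⟩ := Quotient.exact h1
    obtain ⟨k2, h2⟩ := Quotient.exact h2
    refine ⟨max k (max k1 k2), ?_⟩
    have a1 := hmax k (max k1 k2)
    have a2 := hmax k1 k2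
    exact ((h.mono a1.1).congr_left (h1.mono (a1.2.trans a2.1))).congr_right
      (h2.mono (a1.2.trans a2.2))
  let idx : HS (P := P) G → ℕ := fun x => if h : ∃ i, s i = x then h.choose else 0
  have hidx : ∀ x ∈ Set.range s, s (idx x) = x := by
    intro x hx
    have hx' : ∃ i, s i = x := hx
    simp only [idx, dif_pos hx']
    exact hx'.choose_spec
  have hval : ∀ i, Quotient.mk R (idx (s i)) = Quotient.mk R i := by
    intro i
    apply Quotient.sound
    exact ⟨0, by rw [hidx _ ⟨i, rfl⟩]; exact Feq.refl _ _⟩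
  have htask : ∀ (φ : Fml) (f : ℕ → ℕ), ∃ k j,
      (Forces φ (fun i => s (f i)) (c k) ∨ ∀ r ≤ c k, ¬ Forces φ (fun i => s (f i)) r) ∧
      (Forces (.all φ) (fun i => s (f i)) (c k) ∨
        ∀ r ≤ c k, ¬ Forces φ (cons (s j) (fun i => s (f i))) r) := by
    intro φ f
    obtain ⟨k, j, h⟩ := ht (.inl (φ, (List.range φ.bd).map f))
    simp only [Task] at h
    have e : ∀ i < φ.bd, s (((List.range φ.bd).map f).getD i 0) = s (f i) := by
      intro i hi
      rw [List.getD_eq_getElem _ _ (by simpa using hi)]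
      simp
    have e1 := fun r => forces_congr_bd φ _ _ r e
    have e2 := fun r => forces_congr_bd (.all φ) _ _ r e
    have e3 := fun r => forces_congr_bd φ (cons (s j) fun i => s (((List.range φ.bd).map f).getD i 0))
      (cons (s j) fun i => s (f i)) r (by
        intro i hi
        cases i with
        | zero => rfl
        | succ n => exact e n (lt_trans (Nat.lt_succ_self n) hi))
    simp only [e1, e2, e3] at h
    exact ⟨k, j, h⟩
  have htruth : ∀ (φ : Fml) (f : ℕ → ℕ), Sat E φ (fun i => Quotient.mk R (f i)) ↔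
      ∃ k, Forces φ (fun i => s (f i)) (c k) := by
    intro φ
    induction φ with
    | mem i j => intro f; exact hE _ _
    | eq i j => intro f; exact Quotient.eq
    | bot => intro f; exact ⟨False.elim, fun ⟨_, h⟩ => h⟩
    | imp φ ψ ih1 ih2 =>
      intro f
      constructor
      · intro h
        obtain ⟨k, j, h1, -⟩ := htask φ f
        rcases h1 with h1 | h1
        · obtain ⟨l, hl⟩ := (ih2 f).1 (h ((ih1 f).2 ⟨k, h1⟩))
          exact ⟨l, fun q hq _ => hl.mono hq⟩
        · exact ⟨k, fun q hq h2 => absurd h2 (h1 q hq)⟩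
      · rintro ⟨k, hk⟩ h
        obtain ⟨l, hl⟩ := (ih1 f).1 h
        exact (ih2 f).2 ⟨max k l, hk _ (hmax k l).1 (hl.mono (hmax k l).2)⟩
    | all φ ih =>
      intro f
      constructor
      · intro h
        obtain ⟨k, j, -, h1⟩ := htask φ f
        rcases h1 with h1 | h1
        · exact ⟨k, h1⟩
        · have h2 := h (Quotient.mk R j)
          rw [← cons_comp (Quotient.mk R)] at h2
          obtain ⟨l, hl⟩ := (ih _).1 h2
          rw [cons_comp s] at hl
          exact absurd (hl.mono (hmax k l).2) (h1 _ (hmax k l).1)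
      · rintro ⟨k, hk⟩ a
        obtain ⟨j, rfl⟩ := Quotient.exists_rep a
        rw [← cons_comp (Quotient.mk R)]
        apply (ih _).2
        rw [cons_comp s]
        exact ⟨k, hk (s j)⟩
  have hvS : ∀ x ∈ insert (omegaH G) (Set.range (natH G) ∪ C), x ∈ Set.range s := by
    intro x hx
    rw [hv] at hx
    obtain ⟨n, rfl⟩ := hx
    obtain ⟨k, j, h⟩ := ht (.inr (.inr n))
    exact ⟨j, h⟩
  refine ⟨⟨Quotient R, E, Set.range s, fun x => Quotient.mk R (idx x), {q | ∃ k, c k ≤ q},
    ?_, ?_, ?_, ?_, ?_, ?_, ?_⟩, ⟨0, hc0.le⟩, fun x hx => hvS x (Or.inr (Or.inr hx))⟩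
  · rintro p q ⟨k, hk⟩ hpq
    exact ⟨k, hk.trans hpq⟩
  · rintro p q ⟨k, hk⟩ ⟨l, hl⟩
    exact ⟨c (max k l), ⟨_, le_rfl⟩, (hmax k l).1.trans hk, (hmax k l).2.trans hl⟩
  · intro m
    obtain ⟨i, rfl⟩ := Quotient.exists_rep m
    exact ⟨s i, ⟨i, rfl⟩, hval i⟩
  · intro φ w hw
    rw [htruth φ (fun i => idx (w i))]
    have : (fun i => s (idx (w i))) = w := funext fun i => hidx _ (hw i)
    rw [this]
    exact ⟨fun ⟨k, hk⟩ => ⟨c k, ⟨k, le_rfl⟩, hk⟩, fun ⟨q, ⟨k, hk⟩, h⟩ => ⟨k, h.mono hk⟩⟩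
  · rintro a ⟨j, rfl⟩ m hm
    obtain ⟨i, rfl⟩ := Quotient.exists_rep m
    rw [hval] at hm
    obtain ⟨k, hk⟩ := (hE i j).1 hm
    obtain ⟨l, j', h⟩ := ht (.inr (.inl (i, j)))
    simp only [Task] at h
    rcases h with h | ⟨b, h1, h2, h3⟩
    · exact absurd (hk.mono (hmax k l).1) (h _ (hmax k l).2)
    · refine ⟨b, ⟨j', h1⟩, ?_, c l, ⟨l, le_rfl⟩, h2⟩
      rw [← h1, hval]
      exact Quotient.sound ⟨l, h3.symm⟩
  · intro n
    exact hvS _ (Or.inr (Or.inl ⟨n, rfl⟩))
  · exact hvS _ (Or.inl rfl)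

end Pool.Agent.Lib.helper81
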