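import Pool.Agent.Lib.helper81.Forcing

set_option autoImplicit false

namespace Pool.Agent.Lib.helper81

open Name

variable {P : Type} [Preorder P] {G : Type} [Group G] [MulAction G P] [SymSys P G]

lemma Def.cons1 {Φ : Pred} (h : Def Φ) (i : ℕ) (f : ℕ → ℕ) :
    Def (fun M E v => Φ M E (cons (v i) (fun j => v (f j)))) :=
  (h.ren (cons i f)).congr fun M E v => by rw [cons_comp v]

lemma Def.cons2 {Φ : Pred} (h : Def Φ) (i i' : ℕ) (f : ℕ → ℕ) :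
    Def (fun M E v => Φ M E (cons (v i) (cons (v i') (fun j => v (f j))))) :=
  (h.ren (cons i (cons i' f))).congr fun M E v => by rw [cons_comp v, cons_comp v]

/-- semantic forcing: truth in all generic models through `p` -/
def Fc (Φ : Pred) (w : ℕ → HS (P := P) G) (p : P) : Prop :=
  ∀ gm : GM (P := P) G, p ∈ gm.Γ → (∀ i, w i ∈ gm.S) → Φ gm.M gm.E (fun i => gm.val (w i))

lemma exists_gm' (p : P) (w : ℕ → HS (P := P) G) (C : Set (HS (P := P) G)) (hC : C.Countable) :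
    ∃ gm : GM (P := P) G, p ∈ gm.Γ ∧ (∀ i, w i ∈ gm.S) ∧ C ⊆ gm.S := by
  obtain ⟨gm, h1, h2⟩ := exists_gm p (Set.range w ∪ C) ((Set.countable_range w).union hC)
  exact ⟨gm, h1, fun i => h2 (Or.inl ⟨i, rfl⟩), fun x hx => h2 (Or.inr hx)⟩

lemma forces_of_gm {φ : Fml} {w : ℕ → HS (P := P) G} {p : P} (C : Set (HS (P := P) G))
    (hC : C.Countable)
    (h : ∀ gm : GM (P := P) G, p ∈ gm.Γ → (∀ i, w i ∈ gm.S) → C ⊆ gm.S →
      Sat gm.E φ (fun i => gm.val (w i))) : Forces φ w p := by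
  apply Forces.reg
  intro q hq
  obtain ⟨gm, h1, h2, h3⟩ := exists_gm' q w C hC
  obtain ⟨r, hr, h4⟩ := (gm.truth φ w h2).1 (h gm (gm.up _ _ h1 hq) h2 h3)
  obtain ⟨s, -, hs1, hs2⟩ := gm.dir _ _ h1 hr
  exact ⟨s, hs1, h4.mono hs2⟩

lemma fc_iff_forces {Φ : Pred} {φ : Fml} (hφ : ∀ M E v, Φ M E v ↔ Sat E φ v)
    (w : ℕ → HS (P := P) G) (p : P) : Fc Φ w p ↔ Forces φ w p :=
  ⟨fun h => forces_of_gm ∅ Set.countable_empty fun gm h1 h2 _ => (hφ _ _ _).1 (h gm h1 h2),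
    fun h gm h1 h2 => (hφ _ _ _).2 ((gm.truth φ w h2).2 ⟨p, h1, h⟩)⟩

lemma fc_mem (i j : ℕ) (w : ℕ → HS (P := P) G) (p : P) :
    Fc (fun _ E v => E (v i) (v j)) w p ↔ Fmem (w i).1 (w j).1 p :=
  fc_iff_forces (φ := .mem i j) (fun _ _ _ => Iff.rfl) w p

lemma fc_eq (i j : ℕ) (w : ℕ → HS (P := P) G) (p : P) :
    Fc (fun _ _ v => v i = v j) w p ↔ Feq (w i).1 (w j).1 p :=
  fc_iff_forces (φ := .eq i j) (fun _ _ _ => Iff.rfl) w p

lemma feq_of_gm {a b : HS (P := P) G} {p : P} (C : Set (HS (P := P) G)) (hC : C.Countable)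
    (h : ∀ gm : GM (P := P) G, p ∈ gm.Γ → a ∈ gm.S → b ∈ gm.S → C ⊆ gm.S →
      gm.val a = gm.val b) : Feq a.1 b.1 p :=
  forces_of_gm (φ := .eq 0 1) (w := cons a fun _ => b) C hC
    fun gm h1 h2 h3 => h gm h1 (h2 0) (h2 1) h3

lemma fmem_of_gm {a b : HS (P := P) G} {p : P} (C : Set (HS (P := P) G)) (hC : C.Countable)
    (h : ∀ gm : GM (P := P) G, p ∈ gm.Γ → a ∈ gm.S → b ∈ gm.S → C ⊆ gm.S →
      gm.E (gm.val a) (gm.val b)) : Fmem a.1 b.1 p :=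
  forces_of_gm (φ := .mem 0 1) (w := cons a fun _ => b) C hC
    fun gm h1 h2 h3 => h gm h1 (h2 0) (h2 1) h3

namespace Fc

variable {Φ : Pred} {w : ℕ → HS (P := P) G} {p : P}

lemma mono {q : P} (h : Fc Φ w p) (hq : q ≤ p) : Fc Φ w q :=
  fun gm h1 h2 => h gm (gm.up _ _ h1 hq) h2

lemma of_extra (hΦ : Def Φ) (C : Set (HS (P := P) G)) (hC : C.Countable)
    (h : ∀ gm : GM (P := P) G, p ∈ gm.Γ → (∀ i, w i ∈ gm.S) → C ⊆ gm.S →
      Φ gm.M gm.E (fun i => gm.val (w i))) : Fc Φ w p := by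
  obtain ⟨φ, hφ⟩ := hΦ
  rw [fc_iff_forces hφ]
  exact forces_of_gm C hC fun gm h1 h2 h3 => (hφ _ _ _).1 (h gm h1 h2 h3)

lemma reg (hΦ : Def Φ) (h : ∀ q ≤ p, ∃ r ≤ q, Fc Φ w r) : Fc Φ w p := by
  obtain ⟨φ, hφ⟩ := hΦ
  simp only [fc_iff_forces hφ] at h ⊢
  exact Forces.reg h

lemma congr (hΦ : Def Φ) {w' : ℕ → HS (P := P) G} (e : ∀ i, Feq (w i).1 (w' i).1 p)
    (h : Fc Φ w p) : Fc Φ w' p := by
  obtain ⟨φ, hφ⟩ := hΦ
  simp only [fc_iff_forces hφ] at h ⊢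
  exact Forces.congr e h

lemma smul_iff (hΦ : Def Φ) (π : G) : Fc Φ w p ↔ Fc Φ (fun i => π • w i) (π • p) := by
  obtain ⟨φ, hφ⟩ := hΦ
  simp only [fc_iff_forces hφ]
  exact forces_smul π φ w p

lemma smul_sym (hΦ : Def Φ) {π : G} (hπ : ∀ i, π ∈ sym G (w i).1) :
    Fc Φ w p ↔ Fc Φ w (π • p) := by
  rw [smul_iff hΦ π]
  exact ⟨congr hΦ fun i => hπ i _, congr hΦ fun i => (hπ i _).symm⟩

lemma smul_cons (hΦ : Def Φ) {π : G} (hπ : ∀ i, π ∈ sym G (w i).1) (x : HS (P := P) G) :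
    Fc Φ (cons x w) p ↔ Fc Φ (cons (π • x) w) (π • p) := by
  rw [smul_iff hΦ π]
  have e : ∀ i, Feq (π • cons x w i).1 (cons (π • x) w i).1 (π • p) := by
    intro i
    cases i with
    | zero => exact Feq.refl _ _
    | succ n => exact hπ n _
  exact ⟨congr hΦ e, congr hΦ fun i => (e i).symm⟩

lemma smul_cons2 (hΦ : Def Φ) {π : G} (hπ : ∀ i, π ∈ sym G (w i).1) (x y : HS (P := P) G) :
    Fc Φ (cons x (cons y w)) p ↔ Fc Φ (cons (π • x) (cons (π • y) w)) (π • p) := by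
  rw [smul_iff hΦ π]
  have e : ∀ i, Feq (π • cons x (cons y w) i).1 (cons (π • x) (cons (π • y) w) i).1 (π • p) := by
    intro i
    rcases i with _ | _ | n
    · exact Feq.refl _ _
    · exact Feq.refl _ _
    · exact hπ n _
  exact ⟨congr hΦ e, congr hΦ fun i => (e i).symm⟩

end Fc

namespace GM

variable (gm : GM (P := P) G)

lemma truthDef {Φ : Pred} (hΦ : Def Φ) {w : ℕ → HS (P := P) G} (hw : ∀ i, w i ∈ gm.S)
    (h : Φ gm.M gm.E (fun i => gm.val (w i))) : ∃ q ∈ gm.Γ, Fc Φ w q := by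
  obtain ⟨φ, hφ⟩ := hΦ
  simp only [fc_iff_forces hφ]
  exact (gm.truth φ w hw).1 ((hφ _ _ _).1 h)

lemma truthDef_le {Φ : Pred} (hΦ : Def Φ) {w : ℕ → HS (P := P) G} (hw : ∀ i, w i ∈ gm.S)
    (h : Φ gm.M gm.E (fun i => gm.val (w i))) {p : P} (hp : p ∈ gm.Γ) :
    ∃ q ∈ gm.Γ, q ≤ p ∧ Fc Φ w q := by
  obtain ⟨q, hq, h1⟩ := gm.truthDef hΦ hw h
  obtain ⟨r, hr, h2, h3⟩ := gm.dir _ _ hp hq
  exact ⟨r, hr, h2, h1.mono h3⟩

lemma mem_iff {a b : HS (P := P) G} (ha : a ∈ gm.S) (hb : b ∈ gm.S) :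
    gm.E (gm.val a) (gm.val b) ↔ ∃ q ∈ gm.Γ, Fmem a.1 b.1 q :=
  gm.truth (.mem 0 1) (cons a (fun _ => b)) (forall_cons ha fun _ => hb)

lemma eq_iff {a b : HS (P := P) G} (ha : a ∈ gm.S) (hb : b ∈ gm.S) :
    gm.val a = gm.val b ↔ ∃ q ∈ gm.Γ, Feq a.1 b.1 q :=
  gm.truth (.eq 0 1) (cons a (fun _ => b)) (forall_cons ha fun _ => hb)

lemma nonempty : ∃ p, p ∈ gm.Γ := by
  obtain ⟨q, hq, -⟩ := (gm.eq_iff gm.omega_mem gm.omega_mem).1 rfl
  exact ⟨q, hq⟩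

lemma eq_le {a b : HS (P := P) G} (ha : a ∈ gm.S) (hb : b ∈ gm.S) (h : gm.val a = gm.val b)
    {p : P} (hp : p ∈ gm.Γ) : ∃ q ∈ gm.Γ, q ≤ p ∧ Feq a.1 b.1 q := by
  obtain ⟨q, hq, h1⟩ := (gm.eq_iff ha hb).1 h
  obtain ⟨r, hr, h2, h3⟩ := gm.dir _ _ hp hq
  exact ⟨r, hr, h2, h1.mono h3⟩

lemma surj_seq (v : ℕ → gm.M) : ∃ w : ℕ → HS (P := P) G, (∀ i, w i ∈ gm.S) ∧
    (fun i => gm.val (w i)) = v := by
  choose w h1 h2 using fun i => gm.surj (v i)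
  exact ⟨w, h1, funext h2⟩

lemma mem_setH {ι : Type} {A : ι → HS (P := P) G} {h} (hS : setH A h ∈ gm.S) {i : ι}
    (hi : A i ∈ gm.S) : gm.E (gm.val (A i)) (gm.val (setH A h)) := by
  obtain ⟨p, hp⟩ := gm.nonempty
  exact (gm.mem_iff hi hS).2 ⟨p, hp, fmem_setN (fun i => (A i).1) i p⟩

lemma std_setH {ι : Type} {A : ι → HS (P := P) G} {h} (hS : setH A h ∈ gm.S) {m : gm.M}
    (hm : gm.E m (gm.val (setH A h))) : ∃ i, A i ∈ gm.S ∧ gm.val (A i) = m := by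
  obtain ⟨i, h1, h2, -⟩ := gm.std _ hS m hm
  exact ⟨i, h1, h2⟩

lemma mem_setH_iff {ι : Type} {A : ι → HS (P := P) G} {h} (hS : setH A h ∈ gm.S)
    (hA : ∀ i, A i ∈ gm.S) (m : gm.M) :
    gm.E m (gm.val (setH A h)) ↔ ∃ i, gm.val (A i) = m :=
  ⟨fun hm => (gm.std_setH hS hm).imp fun _ h => h.2,
    fun ⟨i, hi⟩ => hi ▸ gm.mem_setH hS (hA i)⟩

lemma wf : WellFounded gm.E := by
  have key : ∀ x : Name P, ∀ a ∈ gm.S, a.1 = x → Acc gm.E (gm.val a) := by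
    intro x
    induction x with
    | mk ι A B ih =>
      rintro ⟨a, ha⟩ haS rfl
      refine ⟨_, fun m hm => ?_⟩
      obtain ⟨i, h1, h2, -⟩ := gm.std _ haS m hm
      rw [← h2]
      exact ih i _ h1 rfl
  refine ⟨fun m => ?_⟩
  obtain ⟨a, ha, rfl⟩ := gm.surj m
  exact key _ a ha rfl

lemma ext (a b : gm.M) (h : ∀ x, gm.E x a ↔ gm.E x b) : a = b := by
  obtain ⟨a, ha, rfl⟩ := gm.surj a
  obtain ⟨b, hb, rfl⟩ := gm.surj b
  have hd : Def (fun _ E v => ∀ x, E x (v 0) ↔ E x (v 1)) :=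
    Def.all (Def.iff (Def.mem _ _) (Def.mem _ _))
  obtain ⟨q, hq, h1⟩ := gm.truthDef hd (w := cons a (fun _ => b)) (forall_cons ha fun _ => hb) h
  refine (gm.eq_iff ha hb).2 ⟨q, hq, ?_⟩
  apply feq_of_forall_hs (G := G) (fun i => (a.sub i).2) (fun i => (b.sub i).2)
  intro r hr u
  refine (fc_mem 0 1 (cons u (cons a fun _ => b)) r).symm.trans
    (Iff.trans ?_ (fc_mem 0 2 (cons u (cons a fun _ => b)) r))
  exact ⟨fun h2 g h3 h4 => (h1.mono hr g h3 (fun i => h4 (i + 1)) _).1 (h2 g h3 h4),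
    fun h2 g h3 h4 => (h1.mono hr g h3 (fun i => h4 (i + 1)) _).2 (h2 g h3 h4)⟩

end GM

lemma natH_eq (n : ℕ) : ∃ h, (natH G n : HS (P := P) G) = setH (fun i : Fin n => natH G i.1) h := by
  have h := fun π : G => mem_sym_natN (P := P) π n
  rw [natN] at h
  refine ⟨Filter.univ_mem' h, Subtype.ext ?_⟩
  show natN n = _
  rw [natN]
  rfl

namespace GM

variable (gm : GM (P := P) G)

/-- the natural numbers of the model -/
def nat (n : ℕ) : gm.M := gm.val (natH G n)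

def omega : gm.M := gm.val (omegaH G)

lemma mem_nat (n : ℕ) (m : gm.M) : gm.E m (gm.nat n) ↔ ∃ i < n, gm.nat i = m := by
  obtain ⟨h, e⟩ := natH_eq (P := P) (G := G) n
  have hS := gm.nat_mem n
  unfold nat
  rw [e] at hS ⊢
  rw [gm.mem_setH_iff hS (fun i => gm.nat_mem i.1)]
  exact ⟨fun ⟨i, hi⟩ => ⟨i.1, i.2, hi⟩, fun ⟨i, hi, h⟩ => ⟨⟨i, hi⟩, h⟩⟩

lemma mem_omega (m : gm.M) : gm.E m gm.omega ↔ ∃ i, gm.nat i = m :=
  gm.mem_setH_iff gm.omega_mem gm.nat_mem m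

lemma nat_inj : Function.Injective gm.nat := by
  intro m n h
  by_contra hne
  have irr : ∀ x, ¬ gm.E x x := fun x => gm.wf.irrefl.irrefl x
  rcases lt_or_gt_of_ne hne with hlt | hlt
  · exact irr (gm.nat n) ((gm.mem_nat n _).2 ⟨m, hlt, h⟩)
  · exact irr (gm.nat m) ((gm.mem_nat m _).2 ⟨n, hlt, h.symm⟩)

lemma mem_nat_succ (n : ℕ) (z : gm.M) :
    gm.E z (gm.nat (n + 1)) ↔ gm.E z (gm.nat n) ∨ z = gm.nat n := by
  rw [gm.mem_nat, gm.mem_nat]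
  constructor
  · rintro ⟨i, hi, rfl⟩
    rcases Nat.lt_succ_iff_lt_or_eq.1 hi with h | h
    · exact Or.inl ⟨i, h, rfl⟩
    · exact Or.inr (by rw [h])
  · rintro (⟨i, hi, rfl⟩ | rfl)
    · exact ⟨i, by omega, rfl⟩
    · exact ⟨n, by omega, rfl⟩

lemma omega_spec : Omega gm.E gm.omega := by
  refine ⟨⟨⟨gm.nat 0, (gm.mem_omega _).2 ⟨0, rfl⟩, fun z hz => ?_⟩, fun x hx => ?_⟩, ?_⟩
  · obtain ⟨i, hi, -⟩ := (gm.mem_nat 0 z).1 hz
    omega
  · obtain ⟨n, rfl⟩ := (gm.mem_omega _).1 hx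
    exact ⟨gm.nat (n + 1), (gm.mem_omega _).2 ⟨n + 1, rfl⟩, gm.mem_nat_succ n⟩
  · rintro w ⟨⟨e, he1, he2⟩, hw⟩ x hx
    obtain ⟨n, rfl⟩ := (gm.mem_omega _).1 hx
    induction n with
    | zero =>
      have : gm.nat 0 = e := gm.ext _ _ fun z => by
        rw [gm.mem_nat]
        exact ⟨fun ⟨i, hi, _⟩ => by omega, fun h => absurd h (he2 z)⟩
      rw [this]; exact he1
    | succ n ih =>
      obtain ⟨s, hs1, hs2⟩ := hw _ (ih ((gm.mem_omega _).2 ⟨n, rfl⟩))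
      have : gm.nat (n + 1) = s := gm.ext _ _ fun z => by rw [gm.mem_nat_succ, hs2]
      rw [this]; exact hs1

lemma omega_eq {w : gm.M} (h : Omega gm.E w) : w = gm.omega := h.unique gm.ext gm.omega_spec

end GM

theorem comp_def {Φ : Pred} (hΦ : Def Φ) (w : ℕ → HS (P := P) G) {ι : Type}
    (A : ι → HS (P := P) G)
    (hcov : ∀ p x, Fc Φ (cons x w) p → ∃ r ≤ p, ∃ i, Feq x.1 (A i).1 r)
    (S : Set G) (hS : S ∈ (SymSys.F : Filter G)) (hw : ∀ π ∈ S, ∀ i, π ∈ sym G (w i).1) :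
    ∃ z : HS (P := P) G, S ⊆ sym G z.1 ∧ (∀ p x, Fmem x.1 z.1 p ↔ Fc Φ (cons x w) p) ∧
      ∃ B, z.1 = Name.mk ι (fun i => (A i).1) B :=
  comp_sem A (fun p x => Fc Φ (cons x w) p) (fun _ _ _ h hq => h.mono hq)
    (fun _ _ h => Fc.reg hΦ h)
    (fun p x x' h e => Fc.congr hΦ (fun i => by
      cases i with
      | zero => exact e
      | succ n => exact Feq.refl _ _) h)
    hcov S hS (fun π hπ _ x => Fc.smul_cons hΦ (hw π hπ) x)

theorem comp_def' {Φ : Pred} (hΦ : Def Φ) (w : ℕ → HS (P := P) G) {ι : Type}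
    (A : ι → HS (P := P) G)
    (hcov : ∀ p x, Fc Φ (cons x w) p → ∃ r ≤ p, ∃ i, Feq x.1 (A i).1 r) :
    ∃ z : HS (P := P) G, (∀ p x, Fmem x.1 z.1 p ↔ Fc Φ (cons x w) p) ∧
      ∃ B, z.1 = Name.mk ι (fun i => (A i).1) B := by
  obtain ⟨φ, hφ⟩ := hΦ
  let w' : ℕ → HS (P := P) G := fun i => if i < φ.bd then w i else omegaH G
  have e : ∀ p x, Fc Φ (cons x w) p ↔ Fc Φ (cons x w') p := by
    intro p x
    rw [fc_iff_forces hφ, fc_iff_forces hφ]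
    apply forces_congr_bd
    intro i hi
    cases i with
    | zero => rfl
    | succ n => simp [w', lt_trans (Nat.lt_succ_self n) hi]
  simp only [e] at hcov ⊢
  obtain ⟨z, -, h⟩ := comp_def ⟨φ, hφ⟩ w' A hcov (⋂ i ∈ Finset.range φ.bd, sym G (w i).1)
    ((Filter.biInter_finset_mem _).2 fun i _ => (w i).sym_mem) (by
      intro π hπ i
      simp only [w']
      split_ifs with hi
      · simp only [Set.mem_iInter] at hπ
        exact hπ i (Finset.mem_range.2 hi)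
      · exact mem_sym_omegaH π)
  exact ⟨z, h⟩

lemma cov_of_gm {Φ : Pred} {w : ℕ → HS (P := P) G} {ι : Type} {A : ι → HS (P := P) G}
    (h : ∀ (gm : GM (P := P) G) (x : gm.M), (∀ i, w i ∈ gm.S) →
      Φ gm.M gm.E (cons x (fun i => gm.val (w i))) → ∃ i, A i ∈ gm.S ∧ gm.val (A i) = x) :
    ∀ p x, Fc Φ (cons x w) p → ∃ r ≤ p, ∃ i, Feq x.1 (A i).1 r := by
  intro p x hx
  obtain ⟨gm, h1, h2, -⟩ := exists_gm' p (cons x w) ∅ Set.countable_empty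
  have h3 := hx gm h1 h2
  rw [cons_comp gm.val] at h3
  obtain ⟨i, h4, h5⟩ := h gm _ (fun i => h2 (i + 1)) h3
  obtain ⟨q, -, h6, h7⟩ := gm.eq_le (h2 0) h4 h5.symm h1
  exact ⟨q, h6, i, h7⟩

lemma GM.mem_comp (gm : GM (P := P) G) {Φ : Pred} (hΦ : Def Φ) {w : ℕ → HS (P := P) G}
    {z : HS (P := P) G} (hz : ∀ p x, Fmem x.1 z.1 p ↔ Fc Φ (cons x w) p)
    (hw : ∀ i, w i ∈ gm.S) (hzS : z ∈ gm.S) (x : gm.M) :
    gm.E x (gm.val z) ↔ Φ gm.M gm.E (cons x (fun i => gm.val (w i))) := by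
  obtain ⟨a, ha, rfl⟩ := gm.surj x
  rw [gm.mem_iff ha hzS, ← cons_comp gm.val]
  simp only [hz]
  exact ⟨fun ⟨q, hq, h⟩ => h gm hq (forall_cons ha hw),
    fun h => gm.truthDef hΦ (forall_cons ha hw) h⟩

lemma GM.comp (gm : GM (P := P) G) {Φ : Pred} (hΦ : Def Φ) {w : ℕ → HS (P := P) G}
    (hw : ∀ i, w i ∈ gm.S) {ι : Type} (A : ι → HS (P := P) G)
    (hcov : ∀ p x, Fc Φ (cons x w) p → ∃ r ≤ p, ∃ i, Feq x.1 (A i).1 r) :
    ∃ c, ∀ x, gm.E x c ↔ Φ gm.M gm.E (cons x (fun i => gm.val (w i))) := by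
  obtain ⟨z, hz, -⟩ := comp_def' hΦ w A hcov
  have hd : Def (fun M E v => ∃ c, ∀ x, E x c ↔ Φ M E (cons x v)) :=
    Def.ex (Def.all (Def.iff (Def.mem _ _) (hΦ.cons1 0 (fun j => j + 1 + 1))))
  obtain ⟨p, hp⟩ := gm.nonempty
  refine Fc.of_extra hd {z} (Set.countable_singleton z) ?_ gm hp hw
  intro g _ h2 h3
  exact ⟨g.val z, g.mem_comp hΦ hz h2 (h3 rfl)⟩

theorem GM.isZF (gm : GM (P := P) G) : IsZF gm.E where
  ext := gm.ext
  found a := by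
    rintro ⟨x, hx⟩
    obtain ⟨y, hy, h⟩ := gm.wf.has_min {x | gm.E x a} ⟨x, hx⟩
    exact ⟨y, hy, fun z hz hza => h z hza hz⟩
  pair a b := by
    obtain ⟨a, ha, rfl⟩ := gm.surj a
    obtain ⟨b, hb, rfl⟩ := gm.surj b
    have hd : Def (fun _ _ v => v 0 = v 1 ∨ v 0 = v 2) := (Def.eq _ _).or (Def.eq _ _)
    refine gm.comp hd (w := cons a fun _ => b) (forall_cons ha fun _ => hb)
      (fun t : Bool => bif t then a else b) (cov_of_gm ?_)
    rintro g x hw (h | h)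
    · exact ⟨true, hw 0, h.symm⟩
    · exact ⟨false, hw 1, h.symm⟩
  union a := by
    obtain ⟨a, ha, rfl⟩ := gm.surj a
    have hd : Def (fun _ E v => ∃ y, E y (v 1) ∧ E (v 0) y) :=
      Def.ex ((Def.mem _ _).and (Def.mem _ _))
    refine gm.comp hd (w := fun _ => a) (fun _ => ha)
      (fun t : (Σ i : a.1.ι, (a.sub i).1.ι) => (a.sub t.1).sub t.2) (cov_of_gm ?_)
    rintro g x hw ⟨y, h1, h2⟩
    obtain ⟨i, h3, rfl, -⟩ := g.std a (hw 0) y h1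
    obtain ⟨j, h4, h5, -⟩ := g.std _ h3 x h2
    exact ⟨⟨i, j⟩, h4, h5⟩
  pow a := by
    obtain ⟨a, ha, rfl⟩ := gm.surj a
    refine gm.comp (Def.sub 0 1) (w := fun _ => a) (fun _ => ha)
      (fun t : {B : a.1.ι → LowerSet P // IsHS G (Name.mk a.1.ι (fun i => (a.sub i).1) B)} =>
        ⟨_, t.2⟩) ?_
    intro p x hx
    have hd : Def (fun _ E v => E (v 0) (v 1) ∧ E (v 0) (v 2)) := (Def.mem _ _).and (Def.mem _ _)
    obtain ⟨z, hz, B, hB⟩ := comp_def' hd (cons x fun _ => a) a.sub (cov_of_gm (by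
      rintro g u hw ⟨-, h2⟩
      obtain ⟨i, h3, h4, -⟩ := g.std a (hw 1) u h2
      exact ⟨i, h3, h4⟩))
    refine ⟨p, le_rfl, ⟨B, hB ▸ z.2⟩, ?_⟩
    show Feq x.1 (Name.mk a.1.ι (fun i => (a.sub i).1) B) p
    rw [← hB]
    apply feq_of_forall_hs (G := G) (fun i => (x.sub i).2) (fun i => (z.sub i).2)
    intro q hq u
    rw [hz]
    refine (fc_mem 0 1 (cons u (cons x fun _ => a)) q).symm.trans ?_
    exact ⟨fun h g h1 h2 => ⟨h g h1 h2, hx.mono hq g h1 (fun i => h2 (i + 1)) _ (h g h1 h2)⟩,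
      fun h g h1 h2 => (h g h1 h2).1⟩
  inf := ⟨_, gm.omega_spec.1⟩
  sep φ v a := by
    obtain ⟨w, hw, e⟩ := gm.surj_seq (cons a v)
    have hd : Def (fun _ E v => E (v 0) (v 1) ∧ Sat E φ (cons (v 0) (fun j => v (j + 2)))) :=
      (Def.mem _ _).and ((Def.sat φ).cons1 0 (fun j => j + 2))
    obtain ⟨c, hc⟩ := gm.comp hd hw (w 0).sub (cov_of_gm (by
      rintro g u hw ⟨h2, -⟩
      obtain ⟨i, h3, h4, -⟩ := g.std _ (hw 0) u h2
      exact ⟨i, h3, h4⟩))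
    rw [e] at hc
    exact ⟨c, hc⟩
  repl φ v a hu := by
    classical
    obtain ⟨w, hw, e⟩ := gm.surj_seq (cons a v)
    have hd0 : Def (fun _ E v => Sat E φ (cons (v 0) (cons (v 1) (fun j => v (j + 3)))) ∧
        ∀ y, Sat E φ (cons y (cons (v 1) (fun j => v (j + 3)))) → y = v 0) :=
      ((Def.sat φ).cons2 0 1 (fun j => j + 3)).and
        (Def.all (((Def.sat φ).cons2 0 2 (fun j => j + 3 + 1)).imp (Def.eq _ _)))
    have hd1 : Def (fun _ E v => Sat E φ (cons (v 0) (cons (v 1) (fun j => v (j + 3))))) :=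
      (Def.sat φ).cons2 0 1 (fun j => j + 3)
    have hd : Def (fun _ E v => ∃ x, E x (v 1) ∧ Sat E φ (cons (v 0) (cons x (fun j => v (j + 2)))) ∧
        ∀ y, Sat E φ (cons y (cons x (fun j => v (j + 2)))) → y = v 0) :=
      Def.ex ((Def.mem _ _).and (((Def.sat φ).cons2 1 0 (fun j => j + 2 + 1)).and
        (Def.all (((Def.sat φ).cons2 0 1 (fun j => j + 2 + 1 + 1)).imp (Def.eq _ _)))))
    let A : (w 0).1.ι × P → HS (P := P) G := fun t =>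
      if h : ∃ y, Fc (fun _ E v => Sat E φ (cons (v 0) (cons (v 1) (fun j => v (j + 3)))))
        (cons y (cons ((w 0).sub t.1) w)) t.2 then h.choose else omegaH G
    obtain ⟨c, hc⟩ := gm.comp hd hw A (by
      intro p y hy
      obtain ⟨g, h1, h2, -⟩ := exists_gm' p (cons y w) ∅ Set.countable_empty
      obtain ⟨x, h3, h4⟩ := hy g h1 h2
      obtain ⟨i, h5, rfl, -⟩ := g.std _ (h2 1) x h3
      obtain ⟨r, -, hr, h6⟩ := g.truthDef_le hd0 (w := cons y (cons ((w 0).sub i) w))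
        (forall_cons (h2 0) (forall_cons h5 fun i => h2 (i + 1))) h4 h1
      refine ⟨r, hr, (i, r), ?_⟩
      have hex : ∃ y, Fc (fun _ E v => Sat E φ (cons (v 0) (cons (v 1) (fun j => v (j + 3)))))
        (cons y (cons ((w 0).sub i) w)) r := ⟨y, fun g' a b => (h6 g' a b).1⟩
      have hA : A (i, r) = hex.choose := dif_pos hex
      have h7 := hex.choose_spec
      rw [← hA] at h7
      refine (fc_eq 1 0 (cons (A (i, r)) (cons y (cons ((w 0).sub i) w))) r).1 ?_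
      intro g' a b
      exact ((h6 g' a (fun i => b (i + 1))).2 _
        (h7 g' a (forall_cons (b 0) fun i => b (i + 2)))).symm)
    rw [e] at hc
    refine ⟨c, fun y => (hc y).trans ⟨fun ⟨x, h1, h2, _⟩ => ⟨x, h1, h2⟩, fun ⟨x, h1, h2⟩ =>
      ⟨x, h1, h2, fun y' h3 => (hu x h1).unique h3 h2⟩⟩⟩

/-- names for definable objects -/
theorem defname {Φ : Pred} (hΦ : Def Φ) (w : ℕ → HS (P := P) G)
    (S : Set G) (hS : S ∈ (SymSys.F : Filter G)) (hw : ∀ π ∈ S, ∀ i, π ∈ sym G (w i).1) :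
    ∃ z : HS (P := P) G, S ⊆ sym G z.1 ∧
      ∀ gm : GM (P := P) G, (∀ i, w i ∈ gm.S) → z ∈ gm.S →
        (∃! y, Φ gm.M gm.E (cons y fun i => gm.val (w i))) →
        Φ gm.M gm.E (cons (gm.val z) fun i => gm.val (w i)) := by
  classical
  have hd : Def (fun M E v => ∃ y, Φ M E (cons y (fun j => v (j + 1))) ∧
      (∀ y', Φ M E (cons y' (fun j => v (j + 1))) → y' = y) ∧ E (v 0) y) :=
    Def.ex ((hΦ.cons1 0 (fun j => j + 1 + 1)).and
      ((Def.all ((hΦ.cons1 0 (fun j => j + 1 + 1 + 1)).imp (Def.eq _ _))).and (Def.mem _ _)))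
  have hd0 : Def (fun M E v => Φ M E (cons (v 0) (fun j => v (j + 2))) ∧
      (∀ y', Φ M E (cons y' (fun j => v (j + 2))) → y' = v 0) ∧ E (v 1) (v 0)) :=
    (hΦ.cons1 0 (fun j => j + 2)).and
      ((Def.all ((hΦ.cons1 0 (fun j => j + 2 + 1)).imp (Def.eq _ _))).and (Def.mem _ _))
  let Y : P → HS (P := P) G := fun q =>
    if h : ∃ y, Fc Φ (cons y w) q then h.choose else omegaH G
  obtain ⟨z, hz1, hz2, -⟩ := comp_def hd w (fun t : (Σ q : P, (Y q).1.ι) => (Y t.1).sub t.2) (by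
    intro p u hu
    obtain ⟨g, h1, h2, -⟩ := exists_gm' p (cons u w) ∅ Set.countable_empty
    obtain ⟨y, h3⟩ := hu g h1 h2
    obtain ⟨y, hy, rfl⟩ := g.surj y
    obtain ⟨r, -, hr, h6⟩ := g.truthDef_le hd0 (w := cons y (cons u w))
      (forall_cons hy h2) h3 h1
    have hex : ∃ y, Fc Φ (cons y w) r := ⟨y, Fc.of_extra hΦ {u} (Set.countable_singleton u) (by
      intro g' a b c
      rw [cons_comp g'.val]
      exact (h6 g' a (forall_cons (b 0) (forall_cons (c rfl) fun i => b (i + 1)))).1)⟩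
    have hA : Y r = hex.choose := dif_pos hex
    have h7 := hex.choose_spec
    rw [← hA] at h7
    obtain ⟨g', a, b, c⟩ := exists_gm' r (cons y (cons u w)) {Y r} (Set.countable_singleton _)
    obtain ⟨-, k2, k3⟩ := h6 g' a b
    have k4 := h7 g' a (forall_cons (c rfl) fun i => b (i + 2))
    rw [cons_comp g'.val] at k4
    have k5 := k2 _ k4
    have k6 : g'.E (g'.val u) (g'.val (Y r)) := by rw [k5]; exact k3
    obtain ⟨i, k7, k8, -⟩ := g'.std _ (c rfl) _ k6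
    obtain ⟨s, -, hs, k9⟩ := g'.eq_le (b 1) k7 k8.symm a
    exact ⟨s, hs.trans hr, ⟨r, i⟩, k9⟩) S hS hw
  refine ⟨z, hz1, fun gm h1 h2 ⟨y, hy1, hy2⟩ => ?_⟩
  have : gm.val z = y := by
    apply gm.ext
    intro x
    rw [gm.mem_comp hd hz2 h1 h2]
    exact ⟨fun ⟨y', k1, _, k3⟩ => hy2 y' k1 ▸ k3, fun k => ⟨y, hy1, hy2, k⟩⟩
  rw [this]
  exact hy1

end Pool.Agent.Lib.helper81
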