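import Pool.Agent.Lib.helper81.Definable

set_option autoImplicit false

namespace Pool.Agent.Lib.helper81

/-- names for the forcing `P` -/
inductive Name (P : Type) [Preorder P] : Type 1
  | mk (ι : Type) (A : ι → Name P) (B : ι → LowerSet P) : Name P

variable {P : Type} [Preorder P]

lemma lmono {S : LowerSet P} {p q : P} (h : p ∈ S) (hq : q ≤ p) : q ∈ S := S.lower hq h

namespace Name

def ι : Name P → Type
  | mk ι _ _ => ι

def A : (x : Name P) → x.ι → Name P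
  | mk _ A _ => A

def B : (x : Name P) → x.ι → LowerSet P
  | mk _ _ B => B

/-- `p` forces `x = y` -/
def Feq : Name P → Name P → P → Prop
  | mk _ A B, mk _ A' B', p =>
    (∀ a, ∀ q ≤ p, q ∈ B a → ∃ r ≤ q, ∃ b, r ∈ B' b ∧ Feq (A a) (A' b) r) ∧
    (∀ b, ∀ q ≤ p, q ∈ B' b → ∃ r ≤ q, ∃ a, r ∈ B a ∧ Feq (A a) (A' b) r)

/-- `p` forces `x ∈ y` -/
def Fmem (x y : Name P) (p : P) : Prop :=
  ∀ q ≤ p, ∃ r ≤ q, ∃ b : y.ι, r ∈ y.B b ∧ Feq x (y.A b) r

lemma feq_iff (x y : Name P) (p : P) : Feq x y p ↔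
    (∀ a, ∀ q ≤ p, q ∈ x.B a → ∃ r ≤ q, ∃ b, r ∈ y.B b ∧ Feq (x.A a) (y.A b) r) ∧
    (∀ b, ∀ q ≤ p, q ∈ y.B b → ∃ r ≤ q, ∃ a, r ∈ x.B a ∧ Feq (x.A a) (y.A b) r) := by
  cases x; cases y; rfl

lemma Feq.mono {x y : Name P} {p q : P} (h : Feq x y p) (hq : q ≤ p) : Feq x y q := by
  rw [feq_iff] at h ⊢
  exact ⟨fun a r hr => h.1 a r (hr.trans hq), fun b r hr => h.2 b r (hr.trans hq)⟩

lemma Feq.refl (x : Name P) : ∀ p, Feq x x p := by
  induction x with
  | mk ι A B ih =>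
    intro p
    exact ⟨fun a q _ hq => ⟨q, le_rfl, a, hq, ih a q⟩, fun a q _ hq => ⟨q, le_rfl, a, hq, ih a q⟩⟩

lemma Feq.symm {x : Name P} : ∀ {y : Name P} {p : P}, Feq x y p → Feq y x p := by
  induction x with
  | mk ι A B ih =>
    intro y p h
    cases y with
    | mk ι' A' B' =>
      refine ⟨fun b q hq hb => ?_, fun a q hq ha => ?_⟩
      · obtain ⟨r, hr, a, ha, h'⟩ := h.2 b q hq hb
        exact ⟨r, hr, a, ha, ih a h'⟩
      · obtain ⟨r, hr, b, hb, h'⟩ := h.1 a q hq ha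
        exact ⟨r, hr, b, hb, ih a h'⟩

lemma Feq.trans {x : Name P} : ∀ {y z : Name P} {p : P}, Feq x y p → Feq y z p → Feq x z p := by
  induction x with
  | mk ι A B ih =>
    intro y z p h1 h2
    cases y with
    | mk ι' A' B' =>
    cases z with
    | mk ι'' A'' B'' =>
      refine ⟨fun a q hq ha => ?_, fun c q hq hc => ?_⟩
      · obtain ⟨r, hr, b, hb, h'⟩ := h1.1 a q hq ha
        obtain ⟨s, hs, c, hc, h''⟩ := h2.1 b r (hr.trans hq) hb
        exact ⟨s, hs.trans hr, c, hc, ih a (h'.mono hs) h''⟩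
      · obtain ⟨r, hr, b, hb, h'⟩ := h2.2 c q hq hc
        obtain ⟨s, hs, a, ha, h''⟩ := h1.2 b r (hr.trans hq) hb
        exact ⟨s, hs.trans hr, a, ha, ih a h'' (h'.mono hs)⟩

lemma Feq.reg {x y : Name P} {p : P} (h : ∀ q ≤ p, ∃ r ≤ q, Feq x y r) : Feq x y p := by
  rw [feq_iff]
  refine ⟨fun a q hq ha => ?_, fun b q hq hb => ?_⟩
  · obtain ⟨r, hr, h'⟩ := h q hq
    obtain ⟨s, hs, h''⟩ := ((feq_iff _ _ _).1 h').1 a r le_rfl (lmono ha hr)
    exact ⟨s, hs.trans hr, h''⟩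
  · obtain ⟨r, hr, h'⟩ := h q hq
    obtain ⟨s, hs, h''⟩ := ((feq_iff _ _ _).1 h').2 b r le_rfl (lmono hb hr)
    exact ⟨s, hs.trans hr, h''⟩

lemma Fmem.mono {x y : Name P} {p q : P} (h : Fmem x y p) (hq : q ≤ p) : Fmem x y q :=
  fun r hr => h r (hr.trans hq)

lemma Fmem.reg {x y : Name P} {p : P} (h : ∀ q ≤ p, ∃ r ≤ q, Fmem x y r) : Fmem x y p := by
  intro q hq
  obtain ⟨r, hr, h'⟩ := h q hq
  obtain ⟨s, hs, h''⟩ := h' r le_rfl
  exact ⟨s, hs.trans hr, h''⟩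

lemma Fmem.of_B {y : Name P} {b : y.ι} {p : P} (h : p ∈ y.B b) : Fmem (y.A b) y p :=
  fun q hq => ⟨q, le_rfl, b, lmono h hq, Feq.refl _ _⟩

lemma Fmem.congr_left {x x' y : Name P} {p : P} (h : Fmem x y p) (e : Feq x x' p) :
    Fmem x' y p := by
  intro q hq
  obtain ⟨r, hr, b, hb, h'⟩ := h q hq
  exact ⟨r, hr, b, hb, ((e.mono (hr.trans hq)).symm).trans h'⟩

lemma Fmem.congr_right {x y y' : Name P} {p : P} (h : Fmem x y p) (e : Feq y y' p) :
    Fmem x y' p := by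
  intro q hq
  obtain ⟨r, hr, b, hb, h'⟩ := h q hq
  obtain ⟨s, hs, c, hc, h''⟩ := ((feq_iff _ _ _).1 e).1 b r (hr.trans hq) hb
  exact ⟨s, hs.trans hr, c, hc, (h'.mono hs).trans h''⟩

lemma Feq.of_mem {x y : Name P} {p : P}
    (h1 : ∀ a, ∀ q ≤ p, q ∈ x.B a → Fmem (x.A a) y q)
    (h2 : ∀ b, ∀ q ≤ p, q ∈ y.B b → Fmem (y.A b) x q) : Feq x y p := by
  rw [feq_iff]
  refine ⟨fun a q hq ha => h1 a q hq ha q le_rfl, fun b q hq hb => ?_⟩
  obtain ⟨r, hr, a, ha, h'⟩ := h2 b q hq hb q le_rfl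
  exact ⟨r, hr, a, ha, h'.symm⟩

end Name

/-- a symmetric system: a group acting monotonically on `P`, with a normal filter -/
class SymSys (P : outParam Type) (G : Type) [Preorder P] [Group G] [MulAction G P] where
  F : Filter G
  mono : ∀ (π : G) {p q : P}, p ≤ q → π • p ≤ π • q
  conj : ∀ S ∈ F, ∀ π : G, {ρ | π⁻¹ * ρ * π ∈ S} ∈ F

variable {G : Type} [Group G] [MulAction G P] [SymSys P G]

lemma smul_mono (π : G) {p q : P} (h : p ≤ q) : π • p ≤ π • q := SymSys.mono π h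

lemma smul_le_iff (π : G) {p q : P} : π • p ≤ q ↔ p ≤ π⁻¹ • q :=
  ⟨fun h => by simpa using smul_mono π⁻¹ h, fun h => by simpa using smul_mono π h⟩

lemma le_smul_iff (π : G) {p q : P} : p ≤ π • q ↔ π⁻¹ • p ≤ q :=
  ⟨fun h => by simpa using smul_mono π⁻¹ h, fun h => by simpa using smul_mono π h⟩

namespace Name

def act (π : G) : Name P → Name P
  | mk ι A B => mk ι (fun i => act π (A i))
      (fun i => ⟨{q | π⁻¹ • q ∈ B i}, fun _ _ h hq => lmono hq (smul_mono π⁻¹ h)⟩)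

instance : MulAction G (Name P) where
  smul := act
  one_smul x := by
    show act 1 x = x
    induction x with
    | mk ι A B ih =>
      simp only [act, ih]
      congr
      funext i
      ext q
      simp
  mul_smul π ρ x := by
    show act (π * ρ) x = act π (act ρ x)
    induction x with
    | mk ι A B ih =>
      simp only [act, ih]
      congr
      funext i
      ext q
      simp [mul_smul]

lemma smul_mk (π : G) (ι : Type) (A : ι → Name P) (B : ι → LowerSet P) :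
    π • mk ι A B = mk ι (fun i => π • A i)
      (fun i => ⟨{q | π⁻¹ • q ∈ B i}, fun _ _ h hq => lmono hq (smul_mono π⁻¹ h)⟩) := rfl

lemma Feq.smul (π : G) {x : Name P} : ∀ {y : Name P} {p : P}, Feq x y p →
    Feq (π • x) (π • y) (π • p) := by
  induction x with
  | mk ι A B ih =>
    intro y p h
    cases y with
    | mk ι' A' B' =>
      rw [smul_mk, smul_mk]
      refine ⟨fun a q hq ha => ?_, fun b q hq hb => ?_⟩
      · obtain ⟨r, hr, b, hb, h'⟩ := h.1 a (π⁻¹ • q) ((le_smul_iff π).1 hq) ha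
        refine ⟨π • r, (smul_le_iff π).2 hr, b, ?_, ih a h'⟩
        show π⁻¹ • π • r ∈ B' b
        simpa using hb
      · obtain ⟨r, hr, a, ha, h'⟩ := h.2 b (π⁻¹ • q) ((le_smul_iff π).1 hq) hb
        refine ⟨π • r, (smul_le_iff π).2 hr, a, ?_, ih a h'⟩
        show π⁻¹ • π • r ∈ B a
        simpa using ha

lemma Fmem.smul (π : G) {x y : Name P} {p : P} (h : Fmem x y p) :
    Fmem (π • x) (π • y) (π • p) := by
  cases y with
  | mk ι A B =>
    intro q hq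
    obtain ⟨r, hr, b, hb, h'⟩ := h (π⁻¹ • q) ((le_smul_iff π).1 hq)
    refine ⟨π • r, (smul_le_iff π).2 hr, b, ?_, h'.smul π⟩
    show π⁻¹ • π • r ∈ B b
    rw [inv_smul_smul]
    exact hb

variable (G) in
/-- automorphisms fixing a name up to forced equality -/
def sym (x : Name P) : Set G := {π | ∀ p, Feq (π • x) x p}

lemma one_mem_sym (x : Name P) : (1 : G) ∈ sym G x := fun p => by
  rw [one_smul]; exact Feq.refl _ _

lemma mul_mem_sym {x : Name P} {π ρ : G} (h1 : π ∈ sym G x) (h2 : ρ ∈ sym G x) :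
    π * ρ ∈ sym G x := fun p => by
  have := (h2 (π⁻¹ • p)).smul π
  rw [smul_inv_smul, ← mul_smul] at this
  exact this.trans (h1 p)

lemma inv_mem_sym {x : Name P} {π : G} (h : π ∈ sym G x) : π⁻¹ ∈ sym G x := fun p => by
  have := (h (π • p)).smul π⁻¹
  rw [inv_smul_smul, inv_smul_smul] at this
  exact this.symm

lemma feq_smul_of_sym {x : Name P} {π ρ : G} (h : π⁻¹ * ρ ∈ sym G x) (p : P) :
    Feq (ρ • x) (π • x) p := by
  have := (h (π⁻¹ • p)).smul π
  rwa [smul_inv_smul, ← mul_smul, mul_inv_cancel_left] at this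

lemma mem_sym_smul {x : Name P} {π ρ : G} (h : π⁻¹ * ρ * π ∈ sym G x) : ρ ∈ sym G (π • x) := by
  intro p
  rw [← mul_smul]
  exact feq_smul_of_sym (by rwa [← mul_assoc]) p

variable (G) in
/-- hereditarily symmetric names -/
def IsHS : Name P → Prop
  | mk ι A B => sym G (mk ι A B) ∈ (SymSys.F : Filter G) ∧ ∀ i, IsHS (A i)

lemma isHS_iff (x : Name P) :
    IsHS G x ↔ sym G x ∈ (SymSys.F : Filter G) ∧ ∀ i, IsHS G (x.A i) := by
  cases x; rfl

lemma IsHS.smul (π : G) {x : Name P} (h : IsHS G x) : IsHS G (π • x) := by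
  induction x with
  | mk ι A B ih =>
    refine ⟨?_, fun i => ih i (h.2 i)⟩
    exact Filter.mem_of_superset (SymSys.conj _ h.1 π) fun ρ hρ => mem_sym_smul hρ

end Name

open Name

variable (G) in
/-- the type of hereditarily symmetric names -/
abbrev HS : Type 1 := {x : Name P // IsHS G x}

instance : MulAction G (HS (P := P) G) where
  smul π x := ⟨π • x.1, x.2.smul π⟩
  one_smul x := Subtype.ext (one_smul G x.1)
  mul_smul π ρ x := Subtype.ext (mul_smul π ρ x.1)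

namespace HS

@[simp] lemma smul_val (π : G) (x : HS (P := P) G) : (π • x).1 = π • x.1 := rfl

def sub (x : HS (P := P) G) (i : x.1.ι) : HS (P := P) G := ⟨x.1.A i, ((isHS_iff _).1 x.2).2 i⟩

@[simp] lemma sub_val (x : HS (P := P) G) (i : x.1.ι) : (x.sub i).1 = x.1.A i := rfl

lemma sym_mem (x : HS (P := P) G) : sym G x.1 ∈ (SymSys.F : Filter G) := ((isHS_iff _).1 x.2).1

end HS

/-- extensionality for names with hereditarily symmetric subnames -/
lemma feq_of_forall_hs {x y : Name P} {p : P} (hx : ∀ i, IsHS G (x.A i)) (hy : ∀ i, IsHS G (y.A i))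
    (h : ∀ q ≤ p, ∀ w : HS (P := P) G, Fmem w.1 x q ↔ Fmem w.1 y q) : Feq x y p :=
  Feq.of_mem (fun a q hq ha => (h q hq ⟨_, hx a⟩).1 (Fmem.of_B ha))
    (fun b q hq hb => (h q hq ⟨_, hy b⟩).2 (Fmem.of_B hb))

/-- semantic comprehension -/
theorem comp_sem {ι : Type} (A : ι → HS (P := P) G) (m : P → HS (P := P) G → Prop)
    (hmono : ∀ p q w, m p w → q ≤ p → m q w)
    (hreg : ∀ p w, (∀ q ≤ p, ∃ r ≤ q, m r w) → m p w)
    (hcongr : ∀ p w w', m p w → Feq w.1 w'.1 p → m p w')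
    (hcov : ∀ p w, m p w → ∃ r ≤ p, ∃ i, Feq w.1 (A i).1 r)
    (S : Set G) (hS : S ∈ (SymSys.F : Filter G))
    (hinv : ∀ π ∈ S, ∀ p w, m p w ↔ m (π • p) (π • w)) :
    ∃ z : HS (P := P) G, S ⊆ sym G z.1 ∧ (∀ p w, Fmem w.1 z.1 p ↔ m p w) ∧
      ∃ B, z.1 = Name.mk ι (fun i => (A i).1) B := by
  let z : Name P := Name.mk ι (fun i => (A i).1)
    (fun i => ⟨{q | m q (A i)}, fun p q h hp => hmono p q _ hp h⟩)
  have hz : ∀ p (w : HS (P := P) G), Fmem w.1 z p ↔ m p w := by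
    intro p w
    constructor
    · intro h
      apply hreg
      intro q hq
      obtain ⟨r, hr, i, hi, h'⟩ := h q hq
      exact ⟨r, hr, hcongr r (A i) w hi h'.symm⟩
    · intro h q hq
      obtain ⟨r, hr, i, h'⟩ := hcov q w (hmono _ _ _ h hq)
      exact ⟨r, hr, i, hcongr r w (A i) (hmono _ _ _ h (hr.trans hq)) h', h'⟩
  have hsub : S ⊆ sym G z := by
    intro π hπ p
    apply feq_of_forall_hs (G := G) (x := π • z) (y := z)
      (fun i : ι => ((A i).2).smul π) (fun i : ι => (A i).2)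
    intro q _ w
    rw [hz]
    constructor
    · intro h
      have h1 := h.smul π⁻¹
      have e : π⁻¹ • (π • z) = z := inv_smul_smul π z
      have h2 : Fmem (π⁻¹ • w).1 z (π⁻¹ • q) := by rw [← e]; exact h1
      have h3 := (hinv π hπ _ _).1 ((hz _ _).1 h2)
      simpa using h3
    · intro h
      have h2 : m (π⁻¹ • q) (π⁻¹ • w) := by
        rw [hinv π hπ]; simpa using h
      have h3 := ((hz _ _).2 h2).smul π
      simpa using h3
  exact ⟨⟨z, Filter.mem_of_superset hS hsub, fun i => (A i).2⟩, hsub, hz, _, rfl⟩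

/-- mixing the translates of a name -/
theorem mixing (H : Subgroup G) (hH : (H : Set G) ∈ (SymSys.F : Filter G)) (y : HS (P := P) G)
    (a : P) (h : ∀ π ∈ H, ∀ r ≤ a, r ≤ π • a → Feq y.1 (π • y.1) r) :
    ∃ z : HS (P := P) G, (H : Set G) ⊆ sym G z.1 ∧ Feq y.1 z.1 a := by
  obtain ⟨z, hz1, hz2, -⟩ := comp_sem (G := G) (ι := H × y.1.ι)
    (fun t => (t.1 : G) • y.sub t.2)
    (fun r w => ∀ r' ≤ r, ∃ r'' ≤ r', ∃ π ∈ H, r'' ≤ π • a ∧ Fmem w.1 (π • y.1) r'')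
    (fun p q w hm hq r hr => hm r (hr.trans hq))
    (fun p w hm r hr => by
      obtain ⟨s, hs, hm'⟩ := hm r hr
      obtain ⟨t, ht, h'⟩ := hm' s le_rfl
      exact ⟨t, ht.trans hs, h'⟩)
    (fun p w w' hm e r hr => by
      obtain ⟨s, hs, π, hπ, h1, h2⟩ := hm r hr
      exact ⟨s, hs, π, hπ, h1, h2.congr_left (e.mono (hs.trans hr))⟩)
    (fun p w hm => by
      obtain ⟨s, hs, π, hπ, -, h2⟩ := hm p le_rfl
      obtain ⟨y, hy⟩ := y
      cases y with
      | mk ι A B =>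
        obtain ⟨t, ht, b, -, h3⟩ := h2 s le_rfl
        exact ⟨t, ht.trans hs, (⟨π, hπ⟩, b), h3⟩)
    H hH
    (by
      have key : ∀ ρ ∈ H, ∀ p (w : HS (P := P) G),
          (∀ r' ≤ p, ∃ r'' ≤ r', ∃ π ∈ H, r'' ≤ π • a ∧ Fmem w.1 (π • y.1) r'') →
          (∀ r' ≤ ρ • p, ∃ r'' ≤ r', ∃ π ∈ H, r'' ≤ π • a ∧ Fmem (ρ • w).1 (π • y.1) r'') := by
        intro ρ hρ p w hm r hr
        obtain ⟨s, hs, π, hπ, h1, h2⟩ := hm (ρ⁻¹ • r) ((le_smul_iff ρ).1 hr)
        refine ⟨ρ • s, (smul_le_iff ρ).2 hs, ρ * π, H.mul_mem hρ hπ, ?_, ?_⟩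
        · rw [mul_smul]; exact smul_mono ρ h1
        · rw [mul_smul]; exact h2.smul ρ
      intro ρ hρ p w
      refine ⟨key ρ hρ p w, fun hm => ?_⟩
      have := key ρ⁻¹ (H.inv_mem hρ) _ _ hm
      simpa using this)
  refine ⟨z, hz1, ?_⟩
  apply feq_of_forall_hs (G := G) (fun i => (y.sub i).2) (fun i => (z.sub i).2)
  intro q hq w
  rw [hz2]
  constructor
  · intro hw r hr
    exact ⟨r, le_rfl, 1, H.one_mem, by rw [one_smul]; exact hr.trans hq,
      by rw [one_smul]; exact hw.mono hr⟩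
  · intro hw
    apply Fmem.reg
    intro r hr
    obtain ⟨s, hs, π, hπ, h1, h2⟩ := hw r hr
    exact ⟨s, hs, h2.congr_right (h π hπ s (hs.trans (hr.trans hq)) h1).symm⟩

end Pool.Agent.Lib.helper81
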