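import Mathlib

set_option autoImplicit false

namespace Pool.Agent.Lib.helper81

/-- Formulas of the language of set theory, with de Bruijn variables. -/
inductive Fml : Type
  | mem : ℕ → ℕ → Fml
  | eq : ℕ → ℕ → Fml
  | bot : Fml
  | imp : Fml → Fml → Fml
  | all : Fml → Fml

/-- The assignment `a, v 0, v 1, ...`. -/
def cons {M : Type*} (a : M) (v : ℕ → M) : ℕ → M
  | 0 => a
  | n + 1 => v n

/-- Tarski satisfaction in the structure `(M, E)`. -/
def Sat {M : Type} (E : M → M → Prop) : Fml → (ℕ → M) → Prop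
  | .mem i j, v => E (v i) (v j)
  | .eq i j, v => v i = v j
  | .bot, _ => False
  | .imp φ ψ, v => Sat E φ v → Sat E ψ v
  | .all φ, v => ∀ a, Sat E φ (cons a v)

variable {M : Type} (E : M → M → Prop)

/-- `a ⊆ b`. -/
def Sub (a b : M) : Prop := ∀ x, E x a → E x b

/-- `w` is an inductive set. -/
def Ind (w : M) : Prop :=
  (∃ e, E e w ∧ ∀ z, ¬ E z e) ∧ ∀ x, E x w → ∃ s, E s w ∧ ∀ z, E z s ↔ E z x ∨ z = x

/-- `(M, E)` is a model of ZF. -/
structure IsZF : Prop where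
  ext : ∀ a b, (∀ x, E x a ↔ E x b) → a = b
  found : ∀ a, (∃ x, E x a) → ∃ x, E x a ∧ ∀ y, E y x → ¬ E y a
  pair : ∀ a b, ∃ c, ∀ x, E x c ↔ x = a ∨ x = b
  union : ∀ a, ∃ c, ∀ x, E x c ↔ ∃ y, E y a ∧ E x y
  pow : ∀ a, ∃ c, ∀ x, E x c ↔ Sub E x a
  inf : ∃ w, Ind E w
  sep : ∀ (φ : Fml) (v : ℕ → M) (a : M), ∃ c, ∀ x, E x c ↔ E x a ∧ Sat E φ (cons x v)
  repl : ∀ (φ : Fml) (v : ℕ → M) (a : M), (∀ x, E x a → ∃! y, Sat E φ (cons y (cons x v))) →
    ∃ c, ∀ y, E y c ↔ ∃ x, E x a ∧ Sat E φ (cons y (cons x v))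

/-- `p` is the Kuratowski pair of `a` and `b`. -/
def OP (p a b : M) : Prop :=
  ∀ z, E z p ↔ (∀ w, E w z ↔ w = a) ∨ (∀ w, E w z ↔ w = a ∨ w = b)

/-- The pair of `x` and `y` belongs to `f`. -/
def Rel (f x y : M) : Prop := ∃ p, E p f ∧ OP E p x y

/-- `f` is an injective function from `X` into `Y`. -/
def Inj (f X Y : M) : Prop :=
  (∀ p, E p f → ∃ x y, E x X ∧ E y Y ∧ OP E p x y) ∧ (∀ x, E x X → ∃! y, Rel E f x y) ∧
    ∀ x x' y, Rel E f x y → Rel E f x' y → x = x'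

/-- `w` is the least inductive set. -/
def Omega (w : M) : Prop := Ind E w ∧ ∀ w', Ind E w' → Sub E w w'

/-- `A` injects into omega. -/
def Ctbl (A : M) : Prop := ∃ w f, Omega E w ∧ Inj E f A w

/-- `A` injects into a natural number. -/
def Fint (A : M) : Prop := ∃ w n f, Omega E w ∧ E n w ∧ Inj E f A n

end Pool.Agent.Lib.helper81
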